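import Pool.Agent.Q41.GT.Stm5

/-!
# Elementary facts on the normal form
-/

namespace Pool.Agent.Q41.GT

open Finset Polynomial
open Pool.Agent.W277.UH (ratP1)

section ring
variable {A : Type*} [CommRing A] {d : ℕ}

lemma num_coeff (x : Sg d → A) (j : ℕ) (hj : j < d) :
    (num d x).coeff j = x (Sum.inl ⟨j, hj⟩) := by
  unfold num
  rw [finsetSum_coeff, Finset.sum_eq_single (⟨j, hj⟩ : Fin d)]
  · simp
  · intro i _ hi
    rw [coeff_C_mul_X_pow, if_neg]
    intro h
    exact hi (Fin.ext h.symm)
  · intro h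
    exact absurd (Finset.mem_univ _) h

lemma num_coeff_ge (x : Sg d → A) (j : ℕ) (hj : d ≤ j) : (num d x).coeff j = 0 := by
  unfold num
  rw [finsetSum_coeff]
  refine Finset.sum_eq_zero fun i _ => ?_
  rw [coeff_C_mul_X_pow, if_neg]
  have := i.2
  omega

lemma num_degree_lt (x : Sg d → A) : (num d x).degree < d := by
  rw [degree_lt_iff_coeff_zero]
  exact fun m hm => num_coeff_ge x m hm

lemma mid_degree_lt (x : Sg d → A) (hd : 1 ≤ d) :
    (∑ i : Fin (d - 1), C (x (Sum.inr i)) * X ^ ((i : ℕ) + 1) + C ((num d x).coeff 0) : A[X]).degree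
      < d := by
  rw [degree_lt_iff_coeff_zero]
  intro m hm
  rw [coeff_add, finsetSum_coeff, coeff_C, if_neg (by omega), add_zero]
  refine Finset.sum_eq_zero fun i _ => ?_
  rw [coeff_C_mul_X_pow, if_neg]
  have := i.2
  omega

lemma den_monic (x : Sg d → A) (hd : 1 ≤ d) : (den d x).Monic := by
  unfold den
  rw [add_assoc]
  exact monic_X_pow_add (mid_degree_lt x hd)

lemma den_natDegree [Nontrivial A] (x : Sg d → A) (hd : 1 ≤ d) : (den d x).natDegree = d := by
  unfold den
  rw [add_assoc, natDegree_add_eq_left_of_degree_lt]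
  · exact natDegree_X_pow d
  · rw [degree_X_pow]
    exact mid_degree_lt x hd

lemma den_coeff_zero (x : Sg d → A) (hd : 1 ≤ d) : (den d x).coeff 0 = (num d x).coeff 0 := by
  unfold den
  rw [coeff_add, coeff_add, finsetSum_coeff, coeff_X_pow, if_neg (by omega), zero_add,
    Finset.sum_eq_zero, zero_add, coeff_C_zero]
  intro i _
  rw [coeff_C_mul_X_pow, if_neg (by omega)]

lemma den_coeff (x : Sg d → A) (j : ℕ) (hj : j < d - 1) :
    (den d x).coeff (j + 1) = x (Sum.inr ⟨j, hj⟩) := by
  unfold den
  rw [coeff_add, coeff_add, finsetSum_coeff, coeff_X_pow, if_neg (by omega), zero_add, coeff_C,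
    if_neg (by omega), add_zero, Finset.sum_eq_single (⟨j, hj⟩ : Fin (d - 1))]
  · simp
  · intro i _ hi
    rw [coeff_C_mul_X_pow, if_neg]
    intro h
    apply hi
    apply Fin.ext
    simp only
    omega
  · intro h
    exact absurd (Finset.mem_univ _) h

lemma den_coeff_top (x : Sg d → A) (hd : 1 ≤ d) : (den d x).coeff d = 1 := by
  nontriviality A
  have h := den_monic x hd
  unfold Monic leadingCoeff at h
  rwa [den_natDegree x hd] at h

end ring

section field
variable {K : Type*} [Field K] {d : ℕ}

lemma max_natDegree (x : Sg d → K) (hd : 1 ≤ d) :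
    max (num d x).natDegree (den d x).natDegree = d := by
  rw [den_natDegree x hd]
  refine max_eq_right (natDegree_le_of_degree_le (num_degree_lt x).le)

lemma ratP1_none (x : Sg d → K) (hd : 1 ≤ d) : ratP1 (num d x) (den d x) d none = some 0 := by
  rw [Pool.Agent.W277.UH.ratP1_none _ _ _ (by rw [den_coeff_top x hd]; exact one_ne_zero),
    num_coeff_ge x d le_rfl, zero_div]

lemma ratP1_zero (x : Sg d → K) (hd : 1 ≤ d) (h : IsCoprime (num d x) (den d x)) :
    ratP1 (num d x) (den d x) d (some 0) = some 1 := by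
  have h0 : (den d x).eval 0 ≠ 0 := by
    intro h0
    obtain ⟨a, b, hab⟩ := h
    have h1 : (num d x).eval 0 = 0 := by
      rw [← coeff_zero_eq_eval_zero, ← den_coeff_zero x hd, coeff_zero_eq_eval_zero, h0]
    have := congrArg (eval 0) hab
    simp [h0, h1] at this
  rw [Pool.Agent.W277.UH.ratP1_some _ _ _ _ h0]
  congr 1
  rw [← coeff_zero_eq_eval_zero, ← coeff_zero_eq_eval_zero, ← den_coeff_zero x hd]
  apply div_self
  rwa [coeff_zero_eq_eval_zero]

/-- orbits of periodic points are finite -/
lemma range_finite {α : Type*} {f : α → α} {z : α} (h : 0 < Function.minimalPeriod f z) :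
    (Set.range fun m : ℕ => f^[m] z).Finite := by
  have h1 : (Set.range fun m : ℕ => f^[m] z) ⊆
      (fun m : ℕ => f^[m] z) '' (Finset.range (Function.minimalPeriod f z) : Set ℕ) := by
    rintro _ ⟨m, rfl⟩
    refine ⟨m % Function.minimalPeriod f z, ?_, ?_⟩
    · simpa using Nat.mod_lt _ h
    · exact Function.iterate_mod_minimalPeriod_eq
  exact (Set.Finite.image _ (Finset.finite_toSet _)).subset h1

lemma range_finite_apply {α : Type*} {f : α → α} {z : α}
    (h : (Set.range fun m : ℕ => f^[m] z).Finite) :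
    (Set.range fun m : ℕ => f^[m] (f z)).Finite := by
  refine h.subset ?_
  rintro _ ⟨m, rfl⟩
  exact ⟨m + 1, by simp only [Function.iterate_succ, Function.comp]⟩

variable {n : ℕ}

lemma prep_points (x : Sg d → K) (hd : 1 ≤ d) (hn : 1 ≤ n) (hx : x ∈ V d n K) (z : Option K)
    (hz : z = none ∨ z = some 0 ∨ z = some 1) :
    (Set.range fun m : ℕ => (ratP1 (num d x) (den d x) d)^[m] z).Finite := by
  have h0 : (Set.range fun m : ℕ => (ratP1 (num d x) (den d x) d)^[m] none).Finite :=
    range_finite (by rw [hx.2]; omega)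
  have h1 : (Set.range fun m : ℕ => (ratP1 (num d x) (den d x) d)^[m] (some 0)).Finite := by
    rw [← ratP1_none x hd]; exact range_finite_apply h0
  have h2 : (Set.range fun m : ℕ => (ratP1 (num d x) (den d x) d)^[m] (some 1)).Finite := by
    rw [← ratP1_zero x hd hx.1]; exact range_finite_apply h1
  rcases hz with rfl | rfl | rfl
  · exact h0
  · exact h1
  · exact h2

lemma many_points (x : Sg d → K) (hn : 1 ≤ n) (hx : x ∈ V d n K) :
    (n : ℕ∞) ≤ {z : Option K |
      (Set.range fun m : ℕ => (ratP1 (num d x) (den d x) d)^[m] z).Finite}.encard := by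
  classical
  set f := ratP1 (num d x) (den d x) d with hf
  have h0 : (Set.range fun m : ℕ => f^[m] none).Finite :=
    range_finite (by rw [hx.2]; omega)
  have h1 : ∀ m, (Set.range fun j : ℕ => f^[j] (f^[m] none)).Finite := by
    intro m
    refine h0.subset ?_
    rintro _ ⟨j, rfl⟩
    exact ⟨j + m, by simp only [Function.iterate_add, Function.comp]⟩
  have h2 : Function.Injective fun i : Fin n => f^[(i : ℕ)] none := by
    intro i j hij
    have := Function.iterate_injOn_Iio_minimalPeriod (f := f) (x := none)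
    apply Fin.ext
    exact this (by rw [Set.mem_Iio, hx.2]; exact i.2) (by rw [Set.mem_Iio, hx.2]; exact j.2) hij
  have h3 : (Set.range fun i : Fin n => f^[(i : ℕ)] none) ⊆
      {z : Option K | (Set.range fun m : ℕ => f^[m] z).Finite} := by
    rintro _ ⟨i, rfl⟩
    exact h1 i
  refine le_trans ?_ (Set.encard_le_encard h3)
  rw [← Set.image_univ, h2.encard_image, Set.encard_univ]
  simp

lemma adjoin_rats {k K : Type} [Field k] [Field K] [Algebra k K] (x : Sg d → K) (hd : 1 ≤ d)
    (h : IntermediateField.adjoin k (Set.range x) = ⊤) :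
    IntermediateField.adjoin k (rats (num d x) (den d x)) = ⊤ := by
  rw [eq_top_iff, ← h, IntermediateField.adjoin_le_iff]
  rintro _ ⟨i, rfl⟩
  apply IntermediateField.subset_adjoin
  rcases i with i | i
  · refine ⟨num d x, den d x, Or.inl rfl, Or.inr rfl, i, d, ?_⟩
    rw [den_coeff_top x hd, num_coeff x i i.2, div_one]
  · refine ⟨den d x, den d x, Or.inr rfl, Or.inr rfl, i + 1, d, ?_⟩
    rw [den_coeff_top x hd, den_coeff x i i.2, div_one]

lemma isAlgebraic_of_eq_top {k : Type*} [Field k] [Algebra k K] {S : Set K}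
    (h : IntermediateField.adjoin k S = ⊤) :
    Algebra.IsAlgebraic (IntermediateField.adjoin k S) K := by
  refine ⟨fun y => ?_⟩
  have hy : y ∈ IntermediateField.adjoin k S := by rw [h]; exact IntermediateField.mem_top
  exact isAlgebraic_algebraMap (⟨y, hy⟩ : IntermediateField.adjoin k S)

end field

end Pool.Agent.Q41.GT
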