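import Pool.Agent.Q41.GT.Stm2

/-!
# Statements, part 3: from symmetric forms to pluricanonical forms
-/

namespace Pool.Agent.Q41.GT

open Finset FF
open Pool.Agent.W602.GT
open Pool.Agent.W603.LV (Ge)
open Pool.Agent.Q41.SU

/-- the monomials of degree `n` in `w` variables -/
abbrev Mon (w n : ℕ) : Type := {γ : Fin w →₀ ℕ // γ ∈ Finset.univ.finsuppAntidiag n}

/-- the matrix of the coefficients of a family of forms of degree `n` -/
noncomputable def cmat {K : Type} [Field K] {w n : ℕ} (U : Mon w n → MvPolynomial (Fin w) K) :
    Matrix (Mon w n) (Mon w n) K :=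
  Matrix.of fun u γ => (U u).coeff γ.1

/-- the linear substitution `X j ↦ ∑ i, A i j X i` -/
noncomputable def lsub {K : Type} [Field K] {w : ℕ} (A : Matrix (Fin w) (Fin w) K)
    (Q : MvPolynomial (Fin w) K) : MvPolynomial (Fin w) K :=
  MvPolynomial.aeval (fun j => ∑ i, MvPolynomial.C (A i j) * MvPolynomial.X i) Q

/-- (K1) **Forms without common zeros**, `C ≥ 1`, `w ≥ 1`. Proof. By the Nullstellensatz over the
algebraically closed field `E = AlgebraicClosure K` (`MvPolynomial.vanishingIdeal_zeroLocus_eq_radical`)
some power of each variable is in the ideal of `E[X]` generated by the `Q i`, so all monomials of some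
degree `M₁ ≥ C` are; taking homogeneous components each monomial of degree `M₁` is an `E`-linear
combination of products of a `Q i` and a monomial of degree `M₁ - C`; since all these polynomials have
coefficients in `K` the same is true over `K` (a linear system over `K` with a solution over `E` has one
over `K`; or apply a `K`-linear map `E → K` with `1 ↦ 1` to the coefficients). Put `M₀ = M₁ - C`. Then by
induction on `j` every monomial of degree `M₀ + j C` is a `K`-linear combination of the products of `j`
of the `Q i` and a monomial of degree `M₀`: write a monomial of degree `M₀ + (j + 1) C` as a monomial of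
degree `j C` times one of degree `M₁ = M₀ + C`. -/
def S_nul : Prop :=
  ∀ (K : Type) [Field K] (w C : ℕ), 1 ≤ C → ∀ (ι : Type) [Fintype ι]
    (Q : ι → MvPolynomial (Fin w) K), (∀ i, (Q i).IsHomogeneous C) →
    (∀ lam : Fin w → AlgebraicClosure K, lam ≠ 0 → ∃ i, MvPolynomial.aeval lam (Q i) ≠ 0) →
    ∃ M₀ : ℕ, ∀ (j : ℕ) (f : MvPolynomial (Fin w) K), f.IsHomogeneous (M₀ + j * C) →
      f ∈ Submodule.span K {g | ∃ (i : Fin j → ι) (γ : Fin w →₀ ℕ), (∑ s, γ s) = M₀ ∧
        g = (∏ s, Q (i s)) * MvPolynomial.monomial γ 1}

/-- (K2) **The determinant of a linear substitution on forms of degree `n`.** Proof. Both sides are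
multiplicative: `cmat (lsub A ∘ U) = cmat U * S(A)` where `S(A)` is the matrix of `lsub A` on the
monomials of degree `n` (so it is enough to treat `U = ` the monomials), `S(A A') = S(A') S(A)` or so. For
a diagonal matrix `S(A)` is diagonal with the entries `∏ a_i ^ γ_i`, and `∑_γ γ_i = N'` does not depend
on `i` (symmetry), `w N' = n |Mon w n|`. For a transvection the matrix `S(A)` is unitriangular in a
suitable order (ordering the monomials by the exponent of one variable): determinant `1`. Every matrix is
a product of transvections and a diagonal matrix (`Matrix.diagonal_transvection_induction`). -/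
def S_sym : Prop :=
  ∀ w n : ℕ, 1 ≤ w → 1 ≤ n → ∃ N' : ℕ, 1 ≤ N' ∧ ∀ (K : Type) [Field K]
    (A : Matrix (Fin w) (Fin w) K) (U : Mon w n → MvPolynomial (Fin w) K),
    (∀ u, (U u).IsHomogeneous n) →
    (cmat fun u => lsub A (U u)).det = A.det ^ N' * (cmat U).det

/-- (K3) **Orders of coefficients from orders of values.** Proof. Induction on `w`: for one variable use
a Vandermonde matrix of constants (determinant a nonzero constant, of order zero); in the step write the
polynomial in one variable with coefficients polynomials in the others: for constants `c'` for the others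
the coefficients of the one-variable polynomial have order at least `n`, and they are the values of the
coefficient polynomials at `c'`. -/
def S_cof : Prop :=
  ∀ (k K : Type) [Field k] [Infinite k] [Field K] [Algebra k K] (v : Place k K) (w : ℕ)
    (Q : MvPolynomial (Fin w) K) (n : ℤ),
    (∀ c : Fin w → k, Ge v n (MvPolynomial.eval (fun i => algebraMap k K (c i)) Q)) →
    ∀ γ, Ge v n (Q.coeff γ)

/-- (K4) **Symmetric forms without common zeros give general type.** Proof. `w ≥ 1`. Choose `t` among the
elements of `H`, a transcendence basis of `K` over `k` (`exists_isTranscendenceBasis_subset` or similar;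
it has `w` elements). Let `Q` be as in the hypothesis for `t`, `M₀` from (K1), `j ≥ M₀ (C' + 1) + 1`,
`n = M₀ + j C`. The products `g = ∏ Q (i s) * X ^ γ`, `j` factors, `|γ| = M₀`, span the forms of degree `n`,
so one can choose a family `U : Mon w n → …` of such products with `det (cmat U) ≠ 0`. For a derivation
`D` which is regular at `v` the value `g(D) := eval (D t) g = ∏ F (i s) D * ∏ D(t_l) ^ γ_l` satisfies
`Ge v (j R v - M₀ (C' R v + 1))`; here `Ge v (-(C' R v) - 1) (D (t_l))`, because `t_l` is in `H`; if
`R v = 0` then `t_l` is regular, so `D(t_l)` is regular, and `Ge v 0`; in both cases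
`Ge v (R v) (g(D))`. For `D = (D_1, …, D_w)` regular at `v` let `A i j = D_i (t_j)`. For constants `c` the
derivation `∑ c_i D_i` is regular at `v`, and `eval c (lsub A (U u)) = U u(∑ c_i D_i)`, so by (K3) all the
coefficients of `lsub A (U u)` satisfy `Ge v (R v)`, and
`det (cmat (lsub A ∘ U)) = det A ^ N' * det (cmat U)` (K2) satisfies `Ge v (R v)` (`Mon w n` is not empty
and all the factors are `Ge v (R v)`, `R v ≥ 0`). Put `θ D = det (D_i t_j) ^ N' * det (cmat U)`. The
forms are `ω_0 = θ ^ m`, `ω_l = t_l θ ^ m` with `m = C' + 1`: they are `N' m`-canonical (the determinant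
of `(∑_j A_{ij} D_j) t_l` is `det A` times that of `D_i t_l`), `ω_l` is regular at every `v` as
`m R v ≥ C' R v`, `θ D ≠ 0` for the dual derivations (`exists_dual`) and the ratios are the `t_l`.
(`S_nul`, `S_sym`, `S_cof` may be assumed. Compare `Pool.Agent.W602.GT.system`.) -/
def S_gtf : Prop :=
  ∀ (k K : Type) [Field k] [CharZero k] [Field K] [Algebra k K] (w : ℕ), 1 ≤ w →
    Algebra.trdeg k K = w → ∀ (ι : Type) [Fintype ι] (F : ι → Derivation k K K → K) (C C' : ℕ)
    (R : Place k K → ℕ) (H : Finset K), 1 ≤ C →
    Algebra.IsAlgebraic (IntermediateField.adjoin k (H : Set K)) K →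
    (∀ v, ∀ h ∈ H, Ge v (-((C' : ℤ) * R v)) h) →
    (∀ v D, DerReg v D → ∀ i, Ge v (R v) (F i D)) →
    (∀ t : Fin w → K, IsTranscendenceBasis k t →
      ∃ Q : ι → MvPolynomial (Fin w) K, (∀ i, (Q i).IsHomogeneous C) ∧
        (∀ i D, F i D = MvPolynomial.eval (fun j => D (t j)) (Q i)) ∧
        ∀ lam : Fin w → AlgebraicClosure K, lam ≠ 0 → ∃ i, MvPolynomial.aeval lam (Q i) ≠ 0) →
    GeneralType k K w

/-- (K5) **Fields with a large stable set are of general type.** From (H7) and (K4). -/
def S_gt : Prop :=
  ∀ d : ℕ, 2 ≤ d → ∃ B : ℕ, ∀ (k K : Type) [Field k] [CharZero k] [Field K] [Algebra k K]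
    (w : ℕ), 1 ≤ w → Algebra.trdeg k K = w → ∀ (p q : Polynomial K), p.natDegree ≤ d →
    q.natDegree = d → IsCoprime p q → ∀ P : Finset K, Stab p q P → B ≤ P.card →
    Algebra.IsAlgebraic (IntermediateField.adjoin k (crs P)) K → GeneralType k K w

end Pool.Agent.Q41.GT
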