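import Pool.Agent.Q41.GT.Stm3
import Pool.Agent.W277.UH.F1

/-!
# Statements, part 4: moduli of maps with marked points
-/

namespace Pool.Agent.Q41.GT

open Finset Polynomial FF
open Pool.Agent.W602.GT
open Pool.Agent.W603.LV (Ge)
open Pool.Agent.Q41.SU
open Pool.Agent.W277.UH (ratP1)

/-- the ratios of the coefficients of `p` and `q` -/
def rats {K : Type} [Field K] (p q : K[X]) : Set K :=
  {c | ∃ f g : K[X], (f = p ∨ f = q) ∧ (g = p ∨ g = q) ∧ ∃ i j, c = f.coeff i / g.coeff j}

/-- (L1) **From `P^1` to affine coordinates.** Proof. Choose a constant `c` in `k` with `some c` not in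
`P` and with `f(c) ≠ c`, `f(c) ≠ ∞` or so (`k` is infinite; compare
`Pool.Agent.Q144.SU.B.stable_reduce`), and conjugate by the Moebius map `z ↦ 1 / (z - c)`, which maps `P` to
a set `P'` of elements of `K` and `f` to `p' / q'` with `q'.natDegree = d`. Cross ratios are invariant, so
`crs P'` contains, for each `some z` in `P`, `z ≠ 0, 1`, the cross ratio of `z, 0, 1, ∞`, and `z` is in
`adjoin k (crs P')`. The coefficients of `p`, `q` solve the linear system `p(z) = y q(z)`
(`f(z) = y`), for the finite `z` in `P` with `y` finite, at least `2 d + 1` of them, with coefficients in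
`F = adjoin k (crs P')`; the solution is unique up to a factor (`p q'' - p'' q` has degree at most
`2 d`), so it is proportional to a solution over `F`, and `rats p q ⊆ F`. -/
def S_aff : Prop :=
  ∀ (k K : Type) [Field k] [CharZero k] [Field K] [Algebra k K] (d : ℕ), 2 ≤ d →
    ∀ p q : K[X], IsCoprime p q → max p.natDegree q.natDegree = d → ∀ P : Finset (Option K),
    (∀ z ∈ P, ratP1 p q d z ∈ P) → none ∈ P → some 0 ∈ P → some 1 ∈ P → 3 * d + 7 ≤ P.card →
    Algebra.IsAlgebraic (IntermediateField.adjoin k (rats p q)) K →
    ∃ (p' q' : K[X]) (P' : Finset K), p'.natDegree ≤ d ∧ q'.natDegree = d ∧ IsCoprime p' q' ∧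
      Stab p' q' P' ∧ P'.card = P.card ∧
      Algebra.IsAlgebraic (IntermediateField.adjoin k (crs P')) K

/-- (L2) **Moduli of maps with many preperiodic points.** Let `K` be the function field of a variety of
dimension `w ≥ 1` and `f = p / q` a map over `K` of degree `d`, normalised so that `∞`, `0`, `1` are
preperiodic, whose coefficients generate a field over which `K` is algebraic. If `f` has at least `B`
preperiodic points in `P^1(K)` then `K` is of general type. Proof. (L1) and (K5); a finite set of
preperiodic points is contained in a finite stable set. -/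
def S_prep : Prop :=
  ∀ d : ℕ, 2 ≤ d → ∃ B : ℕ, ∀ (k K : Type) [Field k] [CharZero k] [Field K] [Algebra k K]
    (w : ℕ), 1 ≤ w → Algebra.trdeg k K = w → ∀ (p q : Polynomial K), IsCoprime p q →
    max p.natDegree q.natDegree = d →
    (∀ z : Option K, z = none ∨ z = some 0 ∨ z = some 1 →
      (Set.range fun m : ℕ => (ratP1 p q d)^[m] z).Finite) →
    Algebra.IsAlgebraic (IntermediateField.adjoin k (rats p q)) K →
    (B : ℕ∞) ≤ {z : Option K | (Set.range fun m : ℕ => (ratP1 p q d)^[m] z).Finite}.encard →
    GeneralType k K w

/-- (L3) **Gonality.** For `K`, `f` as in (L2) and a transcendence basis `t` of `K` the degree of `K`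
over `k(t)` is large if `f` has many preperiodic points in `P^1(K)`. Proof. Let
`k₁ = adjoin k {t 0, …, t (w - 2)}` (the first `w - 1` elements) and let `x` be the last one, so that `K` is
finite of degree at most `D` over `k₁(x)`, `x` transcendental over `k₁`. By
`S_main` (strong uniform boundedness in characteristic zero; it follows from
`Pool.Agent.Q103.FS.core0`, `Pool.Agent.Q144.SU.crc`, `Pool.Agent.Q144.SU.ext`,
`Pool.Agent.Q144.SU.B.t_main`) it is enough to show that
`IsoAlg k₁ p q d` is false. Let `M = (a z + b) / (c z + e)` conjugate `f` to a map `g` with coefficients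
algebraic over `k₁`. The points `∞`, `0`, `1` are preperiodic for `f`, so their images by `M` are
preperiodic for `g`, so algebraic over `k₁` or `∞` (they are roots of nonzero polynomials with
coefficients algebraic over `k₁`); so `M`, up to a scalar, has entries algebraic over `k₁`, hence the
elements of `rats p q` are algebraic over `k₁`, and `K` is algebraic over `k₁`, a contradiction (`x` is
transcendental over `k₁`). -/
def S_gonl : Prop :=
  ∀ d D : ℕ, 2 ≤ d → ∃ B : ℕ, ∀ (k K : Type) [Field k] [CharZero k] [Field K] [Algebra k K]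
    (w : ℕ), 1 ≤ w → ∀ t : Fin w → K, IsTranscendenceBasis k t →
    FiniteDimensional (IntermediateField.adjoin k (Set.range t)) K →
    Module.finrank (IntermediateField.adjoin k (Set.range t)) K ≤ D →
    ∀ (p q : Polynomial K), IsCoprime p q → max p.natDegree q.natDegree = d →
    (∀ z : Option K, z = none ∨ z = some 0 ∨ z = some 1 →
      (Set.range fun m : ℕ => (ratP1 p q d)^[m] z).Finite) →
    Algebra.IsAlgebraic (IntermediateField.adjoin k (rats p q)) K →
    {z : Option K | (Set.range fun m : ℕ => (ratP1 p q d)^[m] z).Finite}.encard ≤ (B : ℕ∞)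

/-- (L4) **Normal form.** `mob` is the action of an invertible matrix on `P^1`. Every map with a point
of exact period at least `3` is conjugate to a unique map for which the point, its image and its second
image are `∞`, `0`, `1`. Proof. Three different points of `P^1(K)` are mapped to `∞`, `0`, `1` by exactly
one Moebius map. -/
def S_nrm : Prop :=
  ∀ (K : Type) [Field K] (d n : ℕ) (p q : K[X]), 1 ≤ d → IsCoprime p q →
    max p.natDegree q.natDegree = d → 3 ≤ n → ∀ z : Option K,
    Function.minimalPeriod (ratP1 p q d) z = n →
    (∃ (p' q' : K[X]) (M : Option K ≃ Option K) (a b c e : K), a * e - b * c ≠ 0 ∧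
      (∀ y, M y = ratP1 (C a * X + C b) (C c * X + C e) 1 y) ∧ IsCoprime p' q' ∧
      max p'.natDegree q'.natDegree = d ∧ (∀ y, M (ratP1 p q d y) = ratP1 p' q' d (M y)) ∧
      M z = none ∧ ratP1 p' q' d none = some 0 ∧ ratP1 p' q' d (some 0) = some 1 ∧
      Function.minimalPeriod (ratP1 p' q' d) none = n) ∧
    (∀ a b c e : K, a * e - b * c ≠ 0 →
      ratP1 (C a * X + C b) (C c * X + C e) 1 none = none →
      ratP1 (C a * X + C b) (C c * X + C e) 1 (some 0) = some 0 →
      ratP1 (C a * X + C b) (C c * X + C e) 1 (some 1) = some 1 → b = 0 ∧ c = 0 ∧ a = e)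

end Pool.Agent.Q41.GT
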