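import Mathlib.RingTheory.Nullstellensatz
import Pool.Agent.Q41.GT.Stm4

/-!
# The moduli spaces of maps with a marked periodic point

Coordinates on the moduli space `M_d(n)` of the pairs (map of degree `d`, point of exact period `n`),
`n ≥ 3`: each pair is conjugate to exactly one pair `(f, ∞)` with `f(∞) = 0`, `f(0) = 1`.
-/

namespace Pool.Agent.Q41.GT

open Finset Polynomial
open Pool.Agent.W277.UH (ratP1)

/-- the index set of the coefficients of a map in normal form -/
abbrev Sg (d : ℕ) : Type := Fin d ⊕ Fin (d - 1)

/-- the numerator: the polynomial of degree less than `d` with the coefficients `x (inl i)` -/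
noncomputable def num {A : Type*} [CommRing A] (d : ℕ) (x : Sg d → A) : A[X] :=
  ∑ i : Fin d, C (x (Sum.inl i)) * X ^ (i : ℕ)

/-- the denominator: monic of degree `d`, with the middle coefficients `x (inr i)` and the constant
coefficient of the numerator -/
noncomputable def den {A : Type*} [CommRing A] (d : ℕ) (x : Sg d → A) : A[X] :=
  X ^ d + ∑ i : Fin (d - 1), C (x (Sum.inr i)) * X ^ ((i : ℕ) + 1) + C ((num d x).coeff 0)

/-- The moduli space: the maps `f = num / den` of degree `d` (so that `f(∞) = 0`, `f(0) = 1`) for which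
`∞` has the exact period `n`. -/
def V (d n : ℕ) (K : Type*) [Field K] : Set (Sg d → K) :=
  {x | IsCoprime (num d x) (den d x) ∧
    Function.minimalPeriod (ratP1 (num d x) (den d x) d) none = n}

/-- The pairs `(p / q, z)` and `(p' / q', z')` are conjugate by a Moebius map. -/
def Conj {K : Type*} [Field K] (d : ℕ) (p q : K[X]) (z : Option K) (p' q' : K[X])
    (z' : Option K) : Prop :=
  ∃ a b c e : K, a * e - b * c ≠ 0 ∧
    (∀ y, ratP1 (C a * X + C b) (C c * X + C e) 1 (ratP1 p q d y) =
      ratP1 p' q' d (ratP1 (C a * X + C b) (C c * X + C e) 1 y)) ∧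
    ratP1 (C a * X + C b) (C c * X + C e) 1 z = z'

/-- the point of the projective line with the homogeneous coordinates `v` -/
noncomputable def pt {K : Type*} [Field K] (v : Fin 2 → K) : Option K := by
  classical exact if v 1 = 0 then none else some (v 0 / v 1)

/-- the homogeneous lift of `p / q` -/
noncomputable def lift {A B : Type*} [CommRing A] [CommRing B] [Algebra A B] (p q : A[X]) (d : ℕ)
    (v : Fin 2 → B) : Fin 2 → B :=
  ![∑ i ∈ range (d + 1), algebraMap A B (p.coeff i) * v 0 ^ i * v 1 ^ (d - i),
    ∑ i ∈ range (d + 1), algebraMap A B (q.coeff i) * v 0 ^ i * v 1 ^ (d - i)]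

/-- the form `Y F₀ - X F₁` of the `k`-th iterate `(F₀, F₁)` of the lift -/
noncomputable def per {A : Type*} [CommRing A] (p q : A[X]) (d k : ℕ) : MvPolynomial (Fin 2) A :=
  MvPolynomial.X 1 * ((lift p q d)^[k] MvPolynomial.X) 0 -
    MvPolynomial.X 0 * ((lift p q d)^[k] MvPolynomial.X) 1

/-- `v` has the formal period `n`: the dynatomic form, the product of the `per p q d k ^ μ (n / k)`
over the divisors `k` of `n`, vanishes at `v`. -/
def Formal {K : Type*} [Field K] (p q : K[X]) (d n : ℕ) (v : Fin 2 → K) : Prop :=
  ∃ g : MvPolynomial (Fin 2) K,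
    g * ∏ k ∈ n.divisors with ArithmeticFunction.moebius (n / k) = -1, per p q d k =
      ∏ k ∈ n.divisors with ArithmeticFunction.moebius (n / k) = 1, per p q d k ∧
    MvPolynomial.eval v g = 0

/-- `K` is the function field of the closure of `W` and `x` its generic point -/
def FunField {k : Type*} [Field k] {σ : Type*} (W : Set (σ → k)) (K : Type*) [Field K] [Algebra k K]
    (x : σ → K) : Prop :=
  (∀ g : MvPolynomial σ k, MvPolynomial.aeval x g = 0 ↔ g ∈ MvPolynomial.vanishingIdeal k W) ∧
    IntermediateField.adjoin k (Set.range x) = ⊤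

/-- the polynomials of `Y` restricted to the line `v + s u` -/
noncomputable def ln {K : Type*} [Field K] (v u : Fin 2 → K) (g : MvPolynomial (Fin 2) K) : K[X] :=
  MvPolynomial.aeval (fun i => C (v i) + C (u i) * X) g

end Pool.Agent.Q41.GT
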