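import Pool.Agent.Q103.FS.Core0
import Pool.Agent.Q95.GT.G1
import Pool.Agent.Q166.GT.Dgt
import Pool.Agent.Q166.GT.Tyr
import Pool.Agent.Q166.GT.Cff
import Pool.Agent.Q223.GT.Wrl
import Pool.Agent.Q223.GT.Wrf
import Pool.Agent.Q182.GT.Cvl
import Pool.Agent.Q223.GT.Wrx
import Pool.Agent.Q95.GT.Locv
import Pool.Agent.Q149.GT.G10
import Pool.Agent.Q166.GT.Alp
import Pool.Agent.Q225.GT.Gfn
import Pool.Agent.Q223.GT.Ords
import Pool.Agent.Q225.GT.Ndr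
import Pool.Agent.Q149.GT.H5
import Pool.Agent.Q149.GT.H6
import Pool.Agent.Q92.GT.H7
import Pool.Agent.Q223.GT.Nullst
import Pool.Agent.Q223.GT.Sym
import Pool.Agent.Q166.GT.Cof
import Pool.Agent.Q92.GT.K4
import Pool.Agent.Q225.GT.K5
import Pool.Agent.Q225.GT.Aff
import Pool.Agent.Q225.GT.Prep
import Pool.Agent.Q96.GT.Gonl

/-!
# All statements of parts 1 - 4, without hypotheses
-/

namespace Pool.Agent.Q41.GT

open Pool.Agent.Q41.SU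

theorem a_locv : S_locv :=
  Pool.Agent.Q95.GT.locv Pool.Agent.Q41.SU.lv.{0} Pool.Agent.Q58.SU.s_e2

theorem a_nmc : S_nmc :=
  Pool.Agent.Q149.GT.t_nmc Pool.Agent.Q198.SU.num Pool.Agent.Q65.SU.s_phi Pool.Agent.Q65.SU.lsq

theorem a_wrl : S_wrl :=
  Pool.Agent.Q223.GT.t_wrl Pool.Agent.Q95.GT.t_bgc.{0} Pool.Agent.Q166.GT.Dgt.t_dgt
    Pool.Agent.Q166.GT.t_tyr Pool.Agent.Q166.GT.Cff.t_cff

theorem a_cvl : S_cvl :=
  Pool.Agent.Q182.GT.cvl Pool.Agent.Q65.SU.cov.{0} Pool.Agent.Q166.GT.t_tyr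

theorem a_wrx : S_wrx :=
  Pool.Agent.Q223.GT.t_wrx a_wrl a_cvl Pool.Agent.Q65.SU.lsq Pool.Agent.Q166.GT.t_tyr

theorem a_ords : S_ords :=
  Pool.Agent.Q223.GT.t_ords a_locv a_nmc Pool.Agent.Q223.GT.t_wrf a_wrx
    Pool.Agent.Q166.GT.Alp.t_alp Pool.Agent.Q225.GT.gfn'

theorem a_ndr : S_ndr := Pool.Agent.Q225.GT.ndr Pool.Agent.Q103.FS.t_nd0.{0}

theorem a_crs : S_crs := Pool.Agent.Q149.GT.t_crs Pool.Agent.Q144.SU.crc.{0}

theorem a_ndw : S_ndw := Pool.Agent.Q149.GT.t_ndw a_ndr Pool.Agent.Q144.SU.crc.{0}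

theorem a_data : S_data :=
  Pool.Agent.Q92.GT.t_H7 a_ords a_ndw a_crs Pool.Agent.Q24.SU.t_red.{0}

theorem a_gtf : S_gtf :=
  Pool.Agent.Q92.GT.t_K4 Pool.Agent.Q223.GT.t_nul Pool.Agent.Q223.GT.t_sym
    Pool.Agent.Q166.GT.Cof.t_cof

theorem a_gt : S_gt := Pool.Agent.Q225.GT.k5 a_data a_gtf

theorem a_prep : S_prep := Pool.Agent.Q225.GT.prep Pool.Agent.Q225.GT.aff a_gt

theorem a_gonl : S_gonl := Pool.Agent.Q96.GT.gonl

end Pool.Agent.Q41.GT
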