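import Pool.Agent.Y216.Point
import Pool.Agent.Q96.LS.Defs
import Pool.Agent.Q41.GT.Mod

/-!
# Statements, part 6: hyperbolicity, the algebraic side

`IsFF k L`: `L` is the function field of a curve over `k`; `canDeg k L = 2 g - 2`; `hgt k c` is the
degree of the function `c`; `pht k f` is the degree of the map to projective space with the
homogeneous coordinates `f` (`W603/LV/Ex.lean`, `Hgt.lean`, `W603/PV/Hgt.lean`). `val f G` is the value
of the form `G` at `f`. `CurveBound`, `OnVar`: `Y216/Point.lean`; `PseudoGeomHyp`: `W602/RG/TB.lean`.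
-/

namespace Pool.Agent.Q41.GT

open Finset Polynomial FF
open Pool.Agent.W602.GT
open Pool.Agent.W603.LV (Ge hgt canDeg)
open Pool.Agent.W603.PV (pht)
open Pool.Agent.Q41.SU
open Pool.Agent.W277.UH (ratP1)

/-- (A1) **Heights on curves.** Proof. `a`, `b`, `φ` from `S_ords`, `B = N₀` from `S_ndr` for them, then
`E₀`, `C'` for `n = |P|` from `S_ords`, `N = (a + 1) (b + 1)`, `e' = cst φ * 2 (N - 1) b E₀ d (d - 1)`,
`C = C' e'`. Let `D = der k L` be the nonzero derivation, `E` an algebraic closure of `L`, `D` extended to `E`.
Its constants in `E` are `k` (algebraically closed, characteristic zero). If `ConjConst k …` holds for the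
images in `E` then by `S_crc` all the cross ratios are in `k` and their height is zero. Otherwise
`NDH k D d …` holds and `S_ndr` gives rows with `wro ≠ 0` in `E`, so in `L`, and `Phi := Phi … x D ≠ 0`
(`gfn ≠ 0`: `S_gfn`; the differences are not zero). At a place `v` with uniformizer `π` let
`D_v = (D π)⁻¹ • D`; it is regular at `v` (`DerReg`; it is `d / dπ`), and
`Phi(D) = (D π) ^ e' * Phi(D_v)` (`Phi` is homogeneous of degree `e'` in `D`), so
`v.ord Phi(D) ≥ e' vo v D + R v` (`Ge v (R v) (Phi(D_v))`). The sum of the orders of a nonzero function over all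
places is zero and `canDeg = - ∑ vo v D` (`Pool.Agent.W603.LV.canDeg_eq`), so `∑ R v ≤ e' canDeg k L`
(`R v = 0` for almost all `v`: where `v.ord Phi(D) = 0` and `vo v D = 0`). With `𝒢` from `S_ords`,
`v.ord 𝒢 ≥ - C' R v`, `v.ord (c 𝒢) ≥ - C' R v`, so `max (- v.ord c) 0 ≤ C' R v + v.ord 𝒢`, and
`hgt k c ≤ C' ∑ R v`. (`S_ords`, `S_ndr`, `S_crc`, `S_gfn` may be assumed; they are theorems,
`Pool.Agent.Q41.GT.a_ords`, `a_ndr` in `Q41/GT/All.lean`, `Pool.Agent.Q144.SU.crc`.) -/
def S_cvh : Prop :=
  ∀ d : ℕ, 2 ≤ d → ∃ B : ℕ, ∀ n : ℕ, B ≤ n → ∃ C : ℕ, ∀ (k L : Type) [Field k] [IsAlgClosed k]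
    [CharZero k] [Field L] [Algebra k L] [IsFF k L] (p q : L[X]), p.natDegree ≤ d →
    q.natDegree = d → IsCoprime p q → ∀ P : Finset L, Stab p q P → P.card = n →
    ∀ c ∈ crs P, hgt k c ≤ C * max (canDeg k L) 0

/-- (A2) **Degrees of curves in varieties with a large stable set.** `x` is the generic point of a
projective variety with function field `L`. Proof. Follow `Pool.Agent.Y221.PB.dom_bound`
(`Y221/PB/Dom.lean`, with `spread`, `alg_hgt`, the structure `Sp` of specialisations). Let `Θ` be the
finite set of the coefficients of `p`, `q`, the elements of `P`, the inverses of the differences of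
different elements of `P`, of the leading coefficient of `q`, of `q(z)`, `z` in `P`, and of the
resultant of `p` and `q`, and the cross ratios. The coordinates `y_i = x_i / x_{i₁}` are algebraic over
`k(crs P)`; by `alg_hgt` (a nonzero leading coefficient, a polynomial in the cross ratios, added with
its inverse to `Θ`) the heights of the specialised `y_i` are at most `A` times the sum of the heights of the
specialised cross ratios. If a point `f` over the function field `L'` of a curve specialises `x`, off the
zeros of a form `G`, then the elements of `Θ` specialise, so `p`, `q`, `P` specialise to data over `L'`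
with the same properties, and `S_cvh` bounds the heights of the cross ratios. (`S_cvh` may be
assumed.) -/
def S_dcb : Prop :=
  ∀ d : ℕ, 2 ≤ d → ∃ B : ℕ, ∀ (k L : Type) [Field k] [IsAlgClosed k] [CharZero k] [Field L]
    [Algebra k L] (p q : L[X]), p.natDegree ≤ d → q.natDegree = d → IsCoprime p q →
    ∀ P : Finset L, Stab p q P → B ≤ P.card →
    Algebra.IsAlgebraic (IntermediateField.adjoin k (crs P)) L →
    ∀ (M : ℕ) (x : Fin (M + 1) → L), x ≠ 0 → coords k x = ⊤ → Pool.Agent.Y216.CurveBound k x

/-- (A3) **Hyperbolicity of varieties with many preperiodic points.** Proof. `S_prep` (general type),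
(L1) `S_aff` and (A2) (`CurveBound`), `Pool.Agent.Y216.pointed_of_bound` (`PseudoGeomHyp`); as in the
proof of `S_prep` (`Pool.Agent.Q225.GT.prep`) a finite set of preperiodic points with `∞`, `0`, `1` is
contained in a finite stable set. (`S_prep`, `S_aff`, `S_dcb` may be assumed.) -/
def S_dyn : Prop :=
  ∀ d : ℕ, 2 ≤ d → ∃ B : ℕ, ∀ (k L : Type) [Field k] [IsAlgClosed k] [CharZero k] [Field L]
    [Algebra k L] (w : ℕ), 1 ≤ w → Algebra.trdeg k L = w → ∀ (p q : Polynomial L), IsCoprime p q →
    max p.natDegree q.natDegree = d →
    (∀ z : Option L, z = none ∨ z = some 0 ∨ z = some 1 →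
      (Set.range fun m : ℕ => (ratP1 p q d)^[m] z).Finite) →
    Algebra.IsAlgebraic (IntermediateField.adjoin k (rats p q)) L →
    (B : ℕ∞) ≤ {z : Option L | (Set.range fun m : ℕ => (ratP1 p q d)^[m] z).Finite}.encard →
    ∀ (M : ℕ) (x : Fin (M + 1) → L), x ≠ 0 → coords k x = ⊤ →
    GeneralType k L w ∧ Pool.Agent.W602.RG.PseudoGeomHyp k x ∧ Pool.Agent.Y216.CurveBound k x

/-- (A4) **Subvarieties of varieties with a large stable set.** `x` is the generic point of a
projective variety with function field `L`; the conclusion: there is a proper closed subset `G = 0` such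
that all closed subvarieties of positive dimension which are not contained in it (given by their
function field `L'`, of transcendence degree `t`, and generic point `f`) are of general type. Proof. As
for (A2), with the same `Θ` and `G`: the data specialise to data over `L'`, the `y_i` specialise to
elements algebraic over `k(crs P')`, so `L'`, which is generated by them, is algebraic over it; apply
`S_gt`. (`S_gt` may be assumed, it is `Pool.Agent.Q41.GT.a_gt`.) -/
def S_sub : Prop :=
  ∀ d : ℕ, 2 ≤ d → ∃ B : ℕ, ∀ (k L : Type) [Field k] [IsAlgClosed k] [CharZero k] [Field L]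
    [Algebra k L] (p q : L[X]), p.natDegree ≤ d → q.natDegree = d → IsCoprime p q →
    ∀ P : Finset L, Stab p q P → B ≤ P.card →
    Algebra.IsAlgebraic (IntermediateField.adjoin k (crs P)) L →
    ∀ (M : ℕ) (x : Fin (M + 1) → L), x ≠ 0 → coords k x = ⊤ →
    ∃ G : MvPolynomial (Fin (M + 1)) k, IsForm G ∧ val x G ≠ 0 ∧
      ∀ (L' : Type) [Field L'] [Algebra k L'] (f : Fin (M + 1) → L') (t : ℕ),
        Pool.Agent.Y216.OnVar k x f → coords k f = ⊤ → val f G ≠ 0 → 1 ≤ t →
        Algebra.trdeg k L' = t → GeneralType k L' t

/-- (A5) **Heights on the moduli spaces.** Proof. Let `f = num d x / den d x` over `L`, `O` the orbit of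
`∞`, of `n` elements. Conjugate by `z ↦ 1 / (z - c)` with a constant `c` in `k`, `some c` not in `O`, `f(c)`
different from `c` and `∞`, as in (L1) (`Pool.Agent.Q225.GT.Aff`), and apply (A1): the cross
ratios of `O` have height at most `C max(canDeg, 0)`. The finite points `z ≠ 0, 1` of `O` are cross ratios of
`O` (of `z, 0, 1, ∞`), so have height at most `C max(canDeg, 0)` too. The vector of the coefficients
`x i` is the unique solution of the linear system `num(z) = f(z) den(z)` for `z` in `O`, both `z` and
`f(z)` finite, at least `2 d + 1` equations (`n ≥ 3 d + 7`); by Cramer's rule `x i` is a quotient of two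
determinants which are polynomials in the points of `O` with a bounded degree, and the height of a
quotient of polynomials in functions is at most the degree times the sum of the heights. (`S_cvh` may be
assumed.) -/
def S_vht : Prop :=
  ∀ d : ℕ, 2 ≤ d → ∃ B : ℕ, ∀ n : ℕ, B ≤ n → ∃ C : ℕ, ∀ (k L : Type) [Field k] [IsAlgClosed k]
    [CharZero k] [Field L] [Algebra k L] [IsFF k L], ∀ x ∈ V d n L, ∀ i,
    hgt k (x i) ≤ C * max (canDeg k L) 0

/-- (A6) **Pointed maps to the moduli spaces**, without exceptional set: `c` is a place of `L` (a point of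
the curve), `a` a point of the moduli space; only finitely many maps `x` of the curve to (the closure
of) the moduli space, with generic point in the moduli space, have the value `a` at `c`. Proof. By (A5)
`x` has bounded degree; and rational curves: if `canDeg k L' < 0` or `= 0` then every `x` in `V d n L'` is
constant. Now follow the proof of `Pool.Agent.Y216.pointed_of_bound` (an infinite family of pointed
maps of bounded degree gives a nonconstant rational curve through `a`): let `K`, `y` be the function
field and the generic point in projective space (`y = (1, …)`) of an irreducible component of `V d n k`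
(finitely many; every `x` in `V d n L` is on one of them) and `G = x_0 H`, `H` the homogenised product of the
resultant and the `B_m`, `0 < m < n` (see (R2), `S_gnp`): a point with `G ≠ 0` on the component is in
`V d n`. So `CurveBound` holds with this `G`, and the proof of `pointed_of_bound` gives the finiteness for
all `a` with `G(a) ≠ 0`, so for all `a` in the component of `V d n k`. (`S_vht`, `S_hom`, `S_gnp` may be
assumed.) -/
def S_pnt : Prop :=
  ∀ d : ℕ, 2 ≤ d → ∃ B : ℕ, ∀ n : ℕ, B ≤ n → ∀ (k L : Type) [Field k] [IsAlgClosed k]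
    [CharZero k] [Field L] [Algebra k L] [IsFF k L] (c : Place k L) (a : Sg d → k), a ∈ V d n k →
    {x : Sg d → L | x ∈ V d n L ∧ ∀ i, Ge c 1 (x i - algebraMap k L (a i))}.Finite

/-- `U` is a locally closed subset of affine space with a morphism with finite fibres to the moduli
space `V d n k` (the projection to the coordinates in `Sg d`). -/
structure QFin {k : Type} [Field k] (d n : ℕ) {τ : Type} (I J : Set (MvPolynomial (τ ⊕ Sg d) k))
    (U : Set (τ ⊕ Sg d → k)) : Prop where
  loc : U = {y | (∀ F ∈ I, MvPolynomial.eval y F = 0) ∧ ∃ G ∈ J, MvPolynomial.eval y G ≠ 0}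
  maps : ∀ y ∈ U, (fun i => y (Sum.inr i)) ∈ V d n k
  fin : ∀ a : Sg d → k, {y | y ∈ U ∧ (fun i => y (Sum.inr i)) = a}.Finite

/-- (A7) **Finite fibres.** Every point `x` of `U` over an extension `K` of `k` has coordinates
algebraic over the field generated by the coordinates of its projection. Proof. We may assume
`K = k(x)`. Suppose `x j`, `j` in `τ`, is transcendental over `k(x ∘ inr)`. Choose `G` in `J` with
`G(x) ≠ 0` and a transcendence basis `T` of `K` over `k(x ∘ inr)` among the `x i`, `i` in `τ`, with `j` in `T`,
and a nonzero polynomial `h` in the coordinates `x ∘ inr` and `T` such that the other coordinates `x i` and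
`1 / G(x)` are integral over `k[x ∘ inr, x i (i in T), 1 / h]`. A `k`-homomorphism of
`k[x ∘ inr, x i (i in T)]` to `k` which does not map `h` to `0` extends to all `x i` and `1 / G(x)`
(integral extension, `k` algebraically closed), so gives a point of `U`. Since the elements of `T` are
algebraically independent over `k(x ∘ inr)`, for a suitable point `a` (a homomorphism of
`k[x ∘ inr]` to `k` for which some coefficient of `h` as a polynomial in `T` is not `0`) there are infinitely
many choices of the value of `x j`: infinitely many points of `U` over `a`, a contradiction. -/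
def S_fin : Prop :=
  ∀ (k τ : Type) [Field k] [IsAlgClosed k] [Fintype τ] (d n : ℕ)
    (I J : Set (MvPolynomial (τ ⊕ Sg d) k)) (U : Set (τ ⊕ Sg d → k)), QFin d n I J U →
    ∀ (K : Type) [Field K] [Algebra k K] (x : τ ⊕ Sg d → K),
    (∀ F ∈ I, MvPolynomial.aeval x F = 0) → (∃ G ∈ J, MvPolynomial.aeval x G ≠ 0) →
    ∀ j, IsAlgebraic (IntermediateField.adjoin k (Set.range fun i => x (Sum.inr i))) (x j)

/-- (A8) **Subvarieties of `U` are of general type.** Proof. Let `K` be the field of fractions of the
coordinate ring of `W`, `x` its generic point, `x' = x ∘ inr`. The image `W'` of `W` in `V d n k` has the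
vanishing ideal `{g | g(x') = 0}`, so `k(x')` is its function field; by (R2) `x'` is in
`V d n (k(x'))`, so in `V d n K`. By (A7) `K` is algebraic over `k(x')`. By (R4) `S_pos` `K` has transcendence
degree `w ≥ 1`, and `S_prep` gives the claim, as in `subvar0` (`Q41/GT/Fin.lean`). (`S_prep`, `S_gnp`,
`S_fun`, `S_pos`, `S_fin` may be assumed.) -/
def S_qsub : Prop :=
  ∀ d : ℕ, 2 ≤ d → ∃ B : ℕ, ∀ n : ℕ, B ≤ n → ∀ (k τ : Type) [Field k] [IsAlgClosed k]
    [CharZero k] [Fintype τ] (I J : Set (MvPolynomial (τ ⊕ Sg d) k)) (U : Set (τ ⊕ Sg d → k)),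
    QFin d n I J U → ∀ (P : Ideal (MvPolynomial (τ ⊕ Sg d) k)) [P.IsPrime], ∀ W ⊆ U, W.Infinite →
    P = MvPolynomial.vanishingIdeal k W →
    ∃ w, 1 ≤ w ∧ GeneralType k (FractionRing (MvPolynomial (τ ⊕ Sg d) k ⧸ P)) w

/-- (A9) **Pointed maps to `U`.** `x` is a rational map from the curve to the closure of `U`, with
generic point in `U`, with the value `a` in `U` at the point `c`. Proof. First `x ∘ inr` is in `V d n L`:
otherwise one of the polynomial conditions of (R2) (`B_n = 0`, `Res ≠ 0`, `B_m ≠ 0`) fails for `x ∘ inr`,
and, together with `F(x) = 0` and `G(x) ≠ 0`, it fails for the value of `x` at almost all points of the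
curve, which is a point of `U` (or: by the argument of (A7), a point of `U` specialises `x`). So by (A6)
there are finitely many `x ∘ inr`. Fix `x' = x ∘ inr` and let `E` be an algebraic closure of `L`. Suppose
the set `S` of the `y` in `E ^ τ` with `F(y, x') = 0` for `F` in `I` and `G(y, x') ≠ 0` for some `G` in `J` is
infinite. `S` is the union over `G` (finitely many suffice) of the complements of `G = 0` in an algebraic
set; so some irreducible component of this set, not contained in `G = 0`, is infinite, and its generic
point `y` over `E` has a coordinate which is transcendental over `E`, so over `k(x')`: a contradiction to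
(A7). So `S` is finite. (`S_pnt`, `S_hom`, `S_fin` may be assumed.) -/
def S_qpnt : Prop :=
  ∀ d : ℕ, 2 ≤ d → ∃ B : ℕ, ∀ n : ℕ, B ≤ n → ∀ (k τ L : Type) [Field k] [IsAlgClosed k]
    [CharZero k] [Fintype τ] [Field L] [Algebra k L] [IsFF k L]
    (I J : Set (MvPolynomial (τ ⊕ Sg d) k)) (U : Set (τ ⊕ Sg d → k)), QFin d n I J U →
    ∀ (c : Place k L), ∀ a ∈ U,
    {x : τ ⊕ Sg d → L | (∀ F ∈ I, MvPolynomial.aeval x F = 0) ∧
      (∃ G ∈ J, MvPolynomial.aeval x G ≠ 0) ∧
      ∀ i, Ge c 1 (x i - algebraMap k L (a i))}.Finite

end Pool.Agent.Q41.GT
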