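import Pool.Agent.Q41.GT.Stm6

/-!
# Statements, part 7: heights on quasi-finite covers, Vojta's inequality over function fields
-/

namespace Pool.Agent.Q41.GT

open Finset Polynomial FF
open Pool.Agent.W602.GT
open Pool.Agent.W603.LV (Ge hgt canDeg)
open Pool.Agent.W603.PV (pht)
open Pool.Agent.Q41.SU
open Pool.Agent.W277.UH (ratP1)

/-- (A10) **Heights on quasi-finite covers of the moduli spaces.** Proof. By noetherian induction we
show for all ideals `𝔞` of the polynomial ring: there is `C` which works for all points `x` of `U` over all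
function fields `L` of curves with `F(x) = 0` for all `F` in `𝔞` (then take `𝔞 = 0`). Suppose this is true for
all larger ideals. If `𝔞` is the unit ideal there is no such `x`. If `𝔞` is not prime, choose `F`, `G` not
in `𝔞` with `F G` in `𝔞`: every `x` satisfies `𝔞 + (F)` or `𝔞 + (G)`; take the maximum. Let `𝔞` be prime,
`K` the field of fractions of the quotient, `y` the images of the variables. If some `F` in `I` is not in
`𝔞` all points `x` of `U` satisfy `𝔞 + (F)`. If all `G` in `J` are in `𝔞` there is no point. Otherwise `y`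
is a point of `U` over `K` and by (A7) each `y j`, `j` in `τ`, is algebraic over the field generated by
the `y (inr i)`: there is a polynomial relation `∑ a_m(y ∘ inr) (y j) ^ m = 0` with polynomials `a_m` with
coefficients in `k` and a leading coefficient `a_r` with `a_r(y ∘ inr) ≠ 0`. If `x` is a zero of `𝔞`, over
`L`, then `∑ a_m(x ∘ inr) (x j) ^ m = 0`; if moreover `a_r(x ∘ inr) ≠ 0` the height of `x j` is at most
`∑ hgt (a_m(x ∘ inr))`-like (see `alg_hgt` in `Y221/PB/Dom.lean`), so at most a constant times the sum of
the heights of the `x (inr i)`, and these are at most `C max(canDeg, 0)` by (A5), if `x ∘ inr` is in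
`V d n L`. This holds as in the proof of (A9) (also: `S_hom`, (R2); or by `ext_points`). If
`a_r(x ∘ inr) = 0`, for some `j`, then `x` satisfies a larger ideal. (`S_vht`, `S_gnp`, `S_fin` may be
assumed.) -/
def S_qht : Prop :=
  ∀ d : ℕ, 2 ≤ d → ∃ B : ℕ, ∀ n : ℕ, B ≤ n → ∀ (k τ : Type) [Field k] [IsAlgClosed k]
    [CharZero k] [Fintype τ] (I J : Set (MvPolynomial (τ ⊕ Sg d) k)) (U : Set (τ ⊕ Sg d → k)),
    QFin d n I J U → ∃ C : ℕ, ∀ (L : Type) [Field L] [Algebra k L] [IsFF k L] (x : τ ⊕ Sg d → L),
    (∀ F ∈ I, MvPolynomial.aeval x F = 0) → (∃ G ∈ J, MvPolynomial.aeval x G ≠ 0) →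
    ∀ i, hgt k (x i) ≤ C * max (canDeg k L) 0

/-- (A11) **Vojta's inequality over function fields**: `F` is the function field of a curve over `k`,
`y` the generic point of a projective variety over `F` with function field `K`. Proof. Let `b` be
homogeneous coordinates in `F` of a generic point of a projective model of `F` (`b 0 = 1` and the other
`b i` generate `F` over `k`: `IsFF` gives a finite number of generators). Let `x` be the vector of the products
`y i * b j` (indexed by `Fin (M' + 1)`, `M' + 1 = (M + 1) (r + 1)`); `coords k x = ⊤`. By (A3) `CurveBound k x`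
holds: a form `G'` over `k` and a constant. Choose `G = G'(y i * b j)` as a form over `F` in the variables
`y i` (the coefficients are polynomials in the `b j`). If `f` is a point over `L` then the vector of the
`f i * b j` satisfies `OnVar k x`: if a form `H` over `k` vanishes at `x` then `H(Y i * b j)` is a form over `F`
which vanishes at `y`. And `pht k f ≤ pht k (f i * b j)`: the latter is the sum `pht k f + pht k b` and
`pht k b ≥ 0`. (`S_dyn` may be assumed.) -/
def S_voj : Prop :=
  ∀ d : ℕ, 2 ≤ d → ∃ B : ℕ, ∀ (k F K : Type) [Field k] [IsAlgClosed k] [CharZero k] [Field F]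
    [Algebra k F] [IsFF k F] [Field K] [Algebra k K] [Algebra F K] [IsScalarTower k F K] (w : ℕ),
    1 ≤ w → Algebra.trdeg k K = w → ∀ (p q : Polynomial K), IsCoprime p q →
    max p.natDegree q.natDegree = d →
    (∀ z : Option K, z = none ∨ z = some 0 ∨ z = some 1 →
      (Set.range fun m : ℕ => (ratP1 p q d)^[m] z).Finite) →
    Algebra.IsAlgebraic (IntermediateField.adjoin k (rats p q)) K →
    (B : ℕ∞) ≤ {z : Option K | (Set.range fun m : ℕ => (ratP1 p q d)^[m] z).Finite}.encard →
    ∀ (M : ℕ) (y : Fin (M + 1) → K), y ≠ 0 → coords F y = ⊤ →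
    ∃ G : MvPolynomial (Fin (M + 1)) F, IsForm G ∧ MvPolynomial.aeval y G ≠ 0 ∧ ∃ A : ℕ,
      ∀ (L : Type) [Field L] [Algebra k L] [Algebra F L] [IsScalarTower k F L] [IsFF k L]
        (f : Fin (M + 1) → L), f ≠ 0 → (∀ H : MvPolynomial (Fin (M + 1)) F, IsForm H →
          MvPolynomial.aeval y H = 0 → MvPolynomial.aeval f H = 0) → MvPolynomial.aeval f G ≠ 0 →
        pht k f ≤ A * max (canDeg k L) 0

end Pool.Agent.Q41.GT
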