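import Pool.Agent.Q41.GT.Top
import Pool.Agent.Q182.AH.CvhA
import Pool.Agent.Q225.GT.Vht
import Pool.Agent.Q211.GT.A6
import Pool.Agent.Q211.GT.A9
import Pool.Agent.Q285.GT.Qsub
import Pool.Agent.Q285.GT.Fib
import Pool.Agent.Q285.GT.Dyn
import Pool.Agent.Q209.GT.Sub
import Pool.Agent.Q223.GT.Voj
import Pool.Agent.Q41.GT.Stm6
import Pool.Agent.Q41.GT.Stm7

/-!
# The statements of parts 6 and 7
-/

namespace Pool.Agent.Q41.GT

theorem c_cvh : S_cvh := Pool.Agent.Q182.AH.cvh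

theorem c_dcb : S_dcb := Pool.Agent.Q209.GT.dcb c_cvh

theorem c_dyn : S_dyn := Pool.Agent.Q285.GT.dyn a_prep Pool.Agent.Q225.GT.aff c_dcb

theorem c_sub : S_sub := Pool.Agent.Q209.GT.sub a_gt

theorem c_voj : S_voj := Pool.Agent.Q223.GT.voj c_dyn

theorem c_vht : S_vht := Pool.Agent.Q225.GT.vht c_cvh

theorem c_pnt : S_pnt := Pool.Agent.Q211.GT.pnt c_vht Pool.Agent.Q176.GT.R1.hom b_gnp

theorem c_fin : S_fin := Pool.Agent.Q285.GT.fin7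

theorem c_qsub : S_qsub :=
  Pool.Agent.Q285.GT.qsub a_prep b_gnp Pool.Agent.Q176.GT.R3.fun_ Pool.Agent.Q176.GT.R3.pos c_fin

theorem c_qpnt : S_qpnt := Pool.Agent.Q211.GT.qpnt c_pnt Pool.Agent.Q176.GT.R1.hom c_fin

end Pool.Agent.Q41.GT
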