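import Pool.Agent.W602.GT.Sys
import Pool.Agent.Q41.SU.Stm1
import Pool.Agent.Q41.SU.Stm2
import Pool.Agent.Q41.SU.Stm3
import Pool.Agent.Q41.SU.Stm4
import Pool.Agent.Q41.SU.Stm5
import Pool.Agent.Q41.SU.Stm6

/-!
# Dynamical moduli spaces of large level are of general type: definitions

`K` is a field over a field `k` of characteristic zero, `p / q` a rational map of degree `d` over `K`,
`P` a finite stable set of points of `K`. Places `v` of `K` are the discrete valuations which are
trivial on `k` (`FF.Place k K`), `Ge v n f` means `f = 0 ∨ n ≤ v.ord f`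
(`Pool.Agent.W603.LV.Ge`). A derivation `D` of `K` is regular at `v` (`DerReg v D`) if it maps the
valuation ring into itself. `GeneralType` is `Pool.Agent.W602.GT.GeneralType`.
-/

namespace Pool.Agent.Q41.GT

open Finset Polynomial FF
open Pool.Agent.W602.GT
open Pool.Agent.W603.LV (Ge)
open Pool.Agent.Q41.SU

/-- the cross ratios of the points of `P` -/
def crs {K : Type} [Field K] (P : Finset K) : Set K :=
  {c | ∃ x0 ∈ P, ∃ x1 ∈ P, ∃ x2 ∈ P, ∃ x ∈ P, x0 ≠ x1 ∧ x0 ≠ x2 ∧ x1 ≠ x2 ∧ x ≠ x2 ∧ x ≠ x0 ∧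
    c = ((x - x0) * (x1 - x2)) / ((x - x2) * (x1 - x0))}

/-- the function whose order at every place is `E₀ d (d - 1)` times the pair function `gg`; here
`α z ^ d = q(z) ^ E₀ α (f z)` -/
noncomputable def gfn {K : Type} [Field K] (E₀ d : ℕ) (α : K → K) (p q : K[X]) (z z' : K) : K :=
  ((z - z') ^ (E₀ * (d * (d - 1))) * resultant q p d d ^ E₀) / (α z * α z') ^ (d * (d - 1))

/-- the columns of the Wronskian: different pairs `(i, j)` with `j ≤ b`, `i + 2 j ≤ a + b` -/
structure Cols (a b : ℕ) (φ : II a b → ℕ × ℕ) : Prop where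
  inj : Function.Injective φ
  le : ∀ c, (φ c).2 ≤ b ∧ (φ c).1 + 2 * (φ c).2 ≤ a + b

/-- the Wronskian with rows `l` and columns `c` and entries `x l ^ i * y l ^ j`, `φ c = (i, j)` -/
def wro {A : Type*} [CommRing A] {a b : ℕ} (φ : II a b → ℕ × ℕ) (x y : II a b → A) : A :=
  Matrix.det (Matrix.of fun l c : II a b => x l ^ (φ c).1 * y l ^ (φ c).2)

/-- the order of vanishing of the determinant -/
def cst {a b : ℕ} (φ : II a b → ℕ × ℕ) : ℕ := ∑ c, (φ c).2

/-- the product over the pairs of different rows -/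
noncomputable def pprod {J : Type} [Fintype J] [DecidableEq J] {K : Type} [Field K] (g : K → K → K)
    (x : J → K) : K :=
  ∏ l, ∏ j ∈ univ.erase l, g (x l) (x j)

/-- the form of the rows `x`: a power of the Wronskian, divided by a power of the product of the
differences of the rows, times a power of the product of the `gfn`. `N = (a + 1) (b + 1)`,
`e = E₀ d (d - 1)`. -/
noncomputable def Phi {k K : Type} [Field k] [Field K] [Algebra k K] {a b : ℕ}
    (φ : II a b → ℕ × ℕ) (E₀ d : ℕ) (α : K → K) (p q : K[X]) (x : II a b → K)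
    (D : Derivation k K K) : K :=
  wro φ x (fun l => D (x l)) ^ (2 * ((a + 1) * (b + 1) - 1) * b * (E₀ * (d * (d - 1)))) *
      pprod (gfn E₀ d α p q) x ^ (4 * ((a + 1) * (b + 1) - 1)) /
    pprod (fun z z' => z - z') x ^ ((a + b) * b * (E₀ * (d * (d - 1))))

end Pool.Agent.Q41.GT
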