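import Pool.Agent.Q41.GT.Ah
import Pool.Agent.Q96.LS.Defs

/-!
# Function fields which carry a map with many preperiodic points
-/

set_option autoImplicit false

namespace Pool.Agent.Q41.GT

open Finset Polynomial FF
open Pool.Agent.W602.GT
open Pool.Agent.W603.LV (canDeg)
open Pool.Agent.W603.PV (pht)
open Pool.Agent.Q41.SU
open Pool.Agent.W277.UH (ratP1)

/-- The field `K`, an extension of `k`, carries the rational map `f = p / q` of degree `d`, with at
least `B` preperiodic points in `P^1(K)`, among them `∞`, `0` and `1`, and with maximal variation: `K`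
is algebraic over the field generated over `k` by the (ratios of the) coefficients of `f`. -/
structure Carries (k : Type) [Field k] {K : Type} [Field K] [Algebra k K] (d B : ℕ) (p q : K[X]) :
    Prop where
  coprime : IsCoprime p q
  degree : max p.natDegree q.natDegree = d
  three : ∀ z : Option K, z = none ∨ z = some 0 ∨ z = some 1 →
    (Set.range fun m : ℕ => (ratP1 p q d)^[m] z).Finite
  variation : Algebra.IsAlgebraic (IntermediateField.adjoin k (rats p q)) K
  many : (B : ℕ∞) ≤ {z : Option K | (Set.range fun m : ℕ => (ratP1 p q d)^[m] z).Finite}.encard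

theorem Carries.mono {k : Type} [Field k] {K : Type} [Field K] [Algebra k K] {d B B' : ℕ}
    {p q : K[X]} (h : Carries k d B p q) (hB : B' ≤ B) : Carries k d B' p q :=
  ⟨h.coprime, h.degree, h.three, h.variation, le_trans (by exact_mod_cast hB) h.many⟩

theorem Carries.dyn (d : ℕ) (hd : 2 ≤ d) : ∃ B : ℕ, ∀ (k L : Type) [Field k] [IsAlgClosed k]
    [CharZero k] [Field L] [Algebra k L] (w : ℕ), 1 ≤ w → Algebra.trdeg k L = w →
    ∀ p q : L[X], Carries k d B p q → ∀ (M : ℕ) (x : Fin (M + 1) → L), x ≠ 0 → coords k x = ⊤ →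
    GeneralType k L w ∧ Pool.Agent.W602.RG.PseudoGeomHyp k x ∧ Pool.Agent.Y216.CurveBound k x := by
  obtain ⟨B, hB⟩ := c_dyn d hd
  refine ⟨B, ?_⟩
  intro k L _ _ _ _ _ w hw htr p q h M x hx hcx
  exact hB k L w hw htr p q h.coprime h.degree h.three h.variation h.many M x hx hcx

theorem Carries.stab (d : ℕ) (hd : 2 ≤ d) (B1 : ℕ) {k K : Type} [Field k] [CharZero k] [Field K]
    [Algebra k K] {p q : K[X]} (h : Carries k d (max B1 (3 * d + 7)) p q) :
    ∃ (p' q' : K[X]) (P' : Finset K), p'.natDegree ≤ d ∧ q'.natDegree = d ∧ IsCoprime p' q' ∧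
      Stab p' q' P' ∧ B1 ≤ P'.card ∧
      Algebra.IsAlgebraic (IntermediateField.adjoin k (crs P')) K := by
  obtain ⟨hpq, hmax, h01, halg, hB⟩ := h
  classical
  obtain ⟨T, hT, hTc⟩ := Set.exists_subset_encard_eq hB
  have hTfin : T.Finite := Set.finite_of_encard_eq_coe hTc
  set f : Option K → Option K := ratP1 p q d with hf
  -- the union of the orbits
  let S0 : Set (Option K) := T ∪ {none, some 0, some 1}
  have hS0fin : S0.Finite := hTfin.union (by simp)
  let S : Set (Option K) := ⋃ z ∈ S0, Set.range fun m : ℕ => f^[m] z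
  have hSfin : S.Finite := by
    refine hS0fin.biUnion fun z hz => ?_
    rcases hz with hz | hz
    · exact hT hz
    · apply h01 z
      simpa using hz
  have hS0S : S0 ⊆ S := by
    intro z hz
    exact Set.mem_biUnion hz ⟨0, rfl⟩
  have hSf : ∀ z ∈ S, f z ∈ S := by
    intro z hz
    simp only [S, Set.mem_iUnion, Set.mem_range] at hz ⊢
    obtain ⟨y, hy, m, rfl⟩ := hz
    exact ⟨y, hy, m + 1, Function.iterate_succ_apply' f m y⟩
  have hcard : max B1 (3 * d + 7) ≤ hSfin.toFinset.card := by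
    have h3 : T.encard ≤ S.encard := Set.encard_le_encard
      (fun z hz => hS0S (Or.inl hz))
    rw [hTc, hSfin.encard_eq_coe_toFinset_card] at h3
    exact_mod_cast h3
  obtain ⟨p', q', P', hp', hq', hpq', hst, hc, halg'⟩ := Pool.Agent.Q225.GT.aff k K d hd p q hpq
    hmax hSfin.toFinset
    (fun z hz => by
      rw [Set.Finite.mem_toFinset] at hz ⊢
      exact hSf z hz)
    (by rw [Set.Finite.mem_toFinset]; exact hS0S (Or.inr (by simp)))
    (by rw [Set.Finite.mem_toFinset]; exact hS0S (Or.inr (by simp)))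
    (by rw [Set.Finite.mem_toFinset]; exact hS0S (Or.inr (by simp)))
    (le_trans (le_max_right _ _) hcard) halg
  exact ⟨p', q', P', hp', hq', hpq', hst, by rw [hc]; exact le_trans (le_max_left _ _) hcard, halg'⟩

theorem Carries.sub (d : ℕ) (hd : 2 ≤ d) : ∃ B : ℕ, ∀ (k L : Type) [Field k] [IsAlgClosed k]
    [CharZero k] [Field L] [Algebra k L] (p q : L[X]), Carries k d B p q →
    ∀ (M : ℕ) (x : Fin (M + 1) → L), x ≠ 0 → coords k x = ⊤ →
    ∃ G : MvPolynomial (Fin (M + 1)) k, IsForm G ∧ val x G ≠ 0 ∧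
      ∀ (L' : Type) [Field L'] [Algebra k L'] (f : Fin (M + 1) → L') (t : ℕ),
        Pool.Agent.Y216.OnVar k x f → coords k f = ⊤ → val f G ≠ 0 → 1 ≤ t →
        Algebra.trdeg k L' = t → GeneralType k L' t := by
  obtain ⟨B1, hB1⟩ := c_sub d hd
  refine ⟨max B1 (3 * d + 7), ?_⟩
  intro k L _ _ _ _ _ p q h M x hx hcx
  obtain ⟨p', q', P', hp', hq', hpq', hst, hc, halg'⟩ := Carries.stab d hd B1 h
  exact hB1 k L p' q' hp' hq' hpq' P' hst hc halg' M x hx hcx

theorem Carries.voj (d : ℕ) (hd : 2 ≤ d) : ∃ B : ℕ, ∀ (k F K : Type) [Field k] [IsAlgClosed k]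
    [CharZero k] [Field F] [Algebra k F] [IsFF k F] [Field K] [Algebra k K] [Algebra F K]
    [IsScalarTower k F K] (w : ℕ), 1 ≤ w → Algebra.trdeg k K = w → ∀ p q : K[X],
    Carries k d B p q → ∀ (M : ℕ) (y : Fin (M + 1) → K), y ≠ 0 → coords F y = ⊤ →
    ∃ G : MvPolynomial (Fin (M + 1)) F, IsForm G ∧ MvPolynomial.aeval y G ≠ 0 ∧ ∃ A : ℕ,
      ∀ (L : Type) [Field L] [Algebra k L] [Algebra F L] [IsScalarTower k F L] [IsFF k L]
        (f : Fin (M + 1) → L), f ≠ 0 → (∀ H : MvPolynomial (Fin (M + 1)) F, IsForm H →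
          MvPolynomial.aeval y H = 0 → MvPolynomial.aeval f H = 0) → MvPolynomial.aeval f G ≠ 0 →
        pht k f ≤ A * max (canDeg k L) 0 := by
  obtain ⟨B, hB⟩ := c_voj d hd
  refine ⟨B, ?_⟩
  intro k F K _ _ _ _ _ _ _ _ _ _ w hw htr p q h M y hy hcy
  exact hB k F K w hw htr p q h.coprime h.degree h.three h.variation h.many M y hy hcy

/-- regular forms have logarithmic poles -/
theorem log_of_general {k K : Type} [Field k] [Field K] [Algebra k K] {w : ℕ}
    (h : GeneralType k K w) (Bd : Place k K → Prop) : LogGeneralType k K w Bd := by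
  obtain ⟨htr, N, hN, ω, h1, h2, h3⟩ := h
  refine ⟨htr, N, hN, ω, h1, ?_, fun P hP _ => h2 P hP, h3⟩
  intro P hP j D hD
  refine h2 P hP j D fun i f hf => ?_
  by_cases hf0 : f = 0
  · rw [hf0, map_zero]
    exact Or.inl rfl
  · have h4 : D i f = f * (D i f / f) := by
      field_simp
    rw [h4]
    exact P.reg_mul hf (hD i f)

end Pool.Agent.Q41.GT
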