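import Pool.Agent.Q41.GT.Elem

/-!
# Subvarieties of the moduli spaces: general type and gonality
-/

namespace Pool.Agent.Q41.GT

open Finset Polynomial
open Pool.Agent.W277.UH (ratP1)
open Pool.Agent.W602.GT

/-- All irreducible subsets of positive dimension of the moduli spaces of large level are of general
type. -/
theorem subvar0 (h1 : S_prep) (h2 : S_gnp) (h3 : S_fun) (d : ℕ) (hd : 2 ≤ d) :
    ∃ B : ℕ, 3 ≤ B ∧ ∀ n, B ≤ n → ∀ (k : Type) [Field k] [CharZero k] [IsAlgClosed k]
      (P : Ideal (MvPolynomial (Sg d) k)) [P.IsPrime] (W : Set (Sg d → k)), W ⊆ V d n k →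
      P = MvPolynomial.vanishingIdeal k W → ∀ w : ℕ, 1 ≤ w →
      Algebra.trdeg k (FractionRing (MvPolynomial (Sg d) k ⧸ P)) = w →
      GeneralType k (FractionRing (MvPolynomial (Sg d) k ⧸ P)) w := by
  obtain ⟨B, hB⟩ := h1 d hd
  refine ⟨max B 3, le_max_right _ _, fun n hn k _ _ _ P _ W hW hP w hw htr => ?_⟩
  have hn1 : 1 ≤ n := le_trans (by omega) (le_trans (le_max_right _ _) hn)
  have hnB : B ≤ n := le_trans (le_max_left _ _) hn
  have hF := h3 k (Sg d) W P hP
  have hx := h2 k _ d n hd hn1 W hW _ hF
  refine hB k _ w hw htr (num d _) (den d _) hx.1 (max_natDegree _ (by omega))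
    (prep_points _ (by omega) hn1 hx) ?_ ?_
  · exact isAlgebraic_of_eq_top (adjoin_rats _ (by omega) hF.2)
  · exact le_trans (by exact_mod_cast hnB) (many_points _ hn1 hx)

/-- The function field is finite over the rational function field of a transcendence basis. -/
theorem finite_tb {k K σ ι : Type} [Field k] [Field K] [Algebra k K] [Finite σ] (x : σ → K)
    (h : IntermediateField.adjoin k (Set.range x) = ⊤) (t : ι → K)
    (ht : IsTranscendenceBasis k t) :
    FiniteDimensional (IntermediateField.adjoin k (Set.range t)) K := by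
  have halg : Algebra.IsAlgebraic (IntermediateField.adjoin k (Set.range t)) K :=
    ht.isAlgebraic_field
  have h1 : IntermediateField.adjoin (IntermediateField.adjoin k (Set.range t)) (Set.range x) =
      ⊤ := by
    rw [eq_top_iff]
    intro y _
    have hy : y ∈ IntermediateField.adjoin k (Set.range x) := by
      rw [h]; exact IntermediateField.mem_top
    have h2 : IntermediateField.adjoin k (Set.range x) ≤
        (IntermediateField.adjoin (IntermediateField.adjoin k (Set.range t))
          (Set.range x)).restrictScalars k := by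
      rw [IntermediateField.adjoin_le_iff]
      exact IntermediateField.subset_adjoin _ _
    exact h2 hy
  have h3 : FiniteDimensional (IntermediateField.adjoin k (Set.range t))
      (IntermediateField.adjoin (IntermediateField.adjoin k (Set.range t)) (Set.range x)) :=
    IntermediateField.finiteDimensional_adjoin fun y _ =>
      (halg.isAlgebraic y).isIntegral
  rw [h1] at h3
  exact Module.Finite.equiv (IntermediateField.topEquiv
    (F := IntermediateField.adjoin k (Set.range t)) (E := K)).toLinearEquiv

/-- The gonality of all irreducible subsets of positive dimension of the moduli spaces tends to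
infinity. -/
theorem gonality (h1 : S_gonl) (h2 : S_gnp) (h3 : S_fun) (d D : ℕ) (hd : 2 ≤ d) :
    ∃ B : ℕ, 3 ≤ B ∧ ∀ n, B ≤ n → ∀ (k : Type) [Field k] [CharZero k] [IsAlgClosed k]
      (P : Ideal (MvPolynomial (Sg d) k)) [P.IsPrime] (W : Set (Sg d → k)), W ⊆ V d n k →
      P = MvPolynomial.vanishingIdeal k W → ∀ w, 1 ≤ w →
      ∀ t : Fin w → FractionRing (MvPolynomial (Sg d) k ⧸ P), IsTranscendenceBasis k t →
      D < Module.finrank (IntermediateField.adjoin k (Set.range t))
        (FractionRing (MvPolynomial (Sg d) k ⧸ P)) := by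
  obtain ⟨B, hB⟩ := h1 d D hd
  refine ⟨B + 3, by omega, fun n hn k _ _ _ P _ W hW hP w hw t ht => ?_⟩
  have hn1 : 1 ≤ n := by omega
  have hF := h3 k (Sg d) W P hP
  have hx := h2 k _ d n hd hn1 W hW _ hF
  have hfd := finite_tb _ hF.2 t ht
  by_contra hc
  have h5 := hB k _ w hw t ht hfd (not_lt.1 hc) (num d _) (den d _) hx.1
    (max_natDegree _ (by omega)) (prep_points _ (by omega) hn1 hx)
    (isAlgebraic_of_eq_top (adjoin_rats _ (by omega) hF.2))
  have h6 := le_trans (many_points _ hn1 hx) h5
  have h7 : n ≤ B := by exact_mod_cast h6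
  omega

end Pool.Agent.Q41.GT
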