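import Pool.Agent.Q41.GT.Defs

/-!
# Statements, part 1: local estimates
-/

namespace Pool.Agent.Q41.GT

open Finset Polynomial FF
open Pool.Agent.W602.GT
open Pool.Agent.W603.LV (Ge)
open Pool.Agent.Q41.SU
open Pool.Agent.W277.UH (ConjConst q₀)

universe u

/-- (G1) **The cluster lemma in a commutative ring**, all weights at once. It is `S_clw` of
`Q41/SU/Stm2.lean` (proof `Pool.Agent.Q144.SU.clw`; the version with different digits is
`Pool.Agent.Q227.SP.clwP`) without norms. Proof. Work in the polynomial ring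
`MvPolynomial (Fin M ⊕ Fin M) A` in the variables `ε_1, …, ε_M, ε'_1, …, ε'_M`; let
`x_l = ∑_{i<M} c_{i,l} ε_1 ⋯ ε_i + ε_1 ⋯ ε_M η_l` and `y_l` the same with `c'`, `ε'` and `η'`,
`Q = bd a b x y`. For a level `1 ≤ i ≤ M` let the class of `l` be given by the first `i` digits
`c_{0,l}, …, c_{i-1,l}` (which determine the first `i` digits `c'`); then `x_l = A_{cl l} + ε_i B_l` and
`y_l = A'_{cl l} + ε'_i B'_l`, so by (C1) `S_exp` the polynomial `Q` is in the ideal generated by the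
`ε_i ^ m ε'_i ^ n` with `∑_l phi(w₁, w₂, n_i(l)) / n_i(l) ≤ w₁ m + w₂ n` for all `w₁`, `w₂`, hence
(`MvPolynomial.mem_ideal_span_monomial_image`) every monomial of `Q` is divisible by one of these. So
in every monomial the degrees `m_i`, `n_i` in `ε_i`, `ε'_i` satisfy these inequalities, for all `i`.
Evaluate at `ε_i = ϖ`, `ε'_i = ϖ'`: every monomial becomes a multiple of `ϖ ^ m ϖ' ^ n`, `m = ∑ m_i`,
`n = ∑ n_i`. (`S_exp` may be assumed.) -/
def S_bgc : Prop :=
  ∀ (A : Type u) [CommRing A] (a b M : ℕ) (ϖ ϖ' : A) (c c' : ℕ → II a b → A)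
    (η η' : II a b → A), (∀ i l m, c i l = c i m → c' i l = c' i m) →
    bd a b (fun l => ∑ i ∈ range M, c i l * ϖ ^ i + ϖ ^ M * η l)
      (fun l => ∑ i ∈ range M, c' i l * ϖ' ^ i + ϖ' ^ M * η' l) ∈
      Ideal.span {z : A | ∃ m n : ℕ, z = ϖ ^ m * ϖ' ^ n ∧ ∀ w₁ w₂ : ℕ,
        ∑ i ∈ Icc 1 M, ∑ l, (phi w₁ w₂ a b (dcl c i l) : ℝ) / (dcl c i l : ℝ) ≤
          (w₁ * m + w₂ * n : ℕ)}

/-- (G2) **Digits at a place.** Proof. Choose `π` with `v.ord π = 1` and a function `rep` on the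
valuation ring with `rep x - x` of positive order (or zero) and `rep x = rep y` if `x - y` has
positive order (a choice of representatives of the classes modulo the maximal ideal). Iterate
`x = rep x + π x₁`. As in `S_dig` (`Q41/SU/Stm2.lean`, proof `Pool.Agent.Q24.SU.t_dig`): `l` and `m`
have the same first `i` digits iff `(z_l - z_m) / π ^ i` is integral. -/
def S_dgt : Prop :=
  ∀ (k K : Type) [Field k] [Field K] [Algebra k K] (v : Place k K) (J : Type) [Fintype J]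
    (z : J → K), Function.Injective z → (∀ l, v.Reg (z l)) → ∀ M : ℕ,
    ∃ (π : K) (c : ℕ → J → K) (η : J → K), v.ord π = 1 ∧ (∀ i l, v.Reg (c i l)) ∧
      (∀ l, v.Reg (η l)) ∧ (∀ l, z l = ∑ i ∈ range M, c i l * π ^ i + π ^ M * η l) ∧
      ∀ i ≤ M, ∀ l m, (∀ j < i, c j m = c j l) ↔ (m = l ∨ (i : ℤ) ≤ v.ord (z l - z m))

/-- (G3) **The Taylor homomorphism of a derivation.** Proof. Leibniz
(`D^n (x y) = ∑ binom(n, i) D^i x D^(n-i) y`; compare `S_tay`, proof `Pool.Agent.Q58.SU.s_tay`). The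
coefficient `D^n x / n!` is regular: `n!` is a nonzero constant. -/
def S_tyr : Prop :=
  ∀ (k K : Type) [Field k] [CharZero k] [Field K] [Algebra k K] (D : Derivation k K K),
    ∃ τ : K →ₐ[k] PowerSeries K, (∀ x, τ x = tay D x) ∧
      ∀ v : Place k K, DerReg v D → ∀ x, v.Reg x → ∀ n, v.Reg (PowerSeries.coeff n (τ x))

/-- (G4) **The leading coefficient.** Proof. `B = P ^ V * C π ^ H * B'` with
`B' = ∑ b_i P ^ (m_i - V) C π ^ (n_i - H)`; `P` has the constant term `π ≠ 0`, so `P ^ V * C π ^ H` is a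
unit of `PowerSeries K`, `X ^ c` divides `B'` and `coeff c B = π ^ (V + H) * coeff c B'`. For `m' ≥ r` the
coefficient of `X ^ r` in `P ^ m'` has order at least `m' - r` (induction on `m'`: `P = π + X (…)` with
regular coefficients). So the coefficient of `X ^ c` in `b_i P ^ m' C π ^ n'` has order at least
`max (m' - c) 0 + n'`, and `J` times this is at least `m' + J n' - c ≥ W - V - J H - c`. -/
def S_cff : Prop :=
  ∀ (k K : Type) [Field k] [Field K] [Algebra k K] (v : Place k K) (π : K) (P : PowerSeries K)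
    (V H W c J : ℕ), v.ord π = 1 → 1 ≤ J → (∀ n, v.Reg (PowerSeries.coeff n P)) →
    PowerSeries.constantCoeff P = π → ∀ (S : Type) [Fintype S] (β : S → PowerSeries K)
    (m n : S → ℕ), (∀ s i, v.Reg (PowerSeries.coeff i (β s))) →
    (∀ s, V ≤ m s ∧ H ≤ n s ∧ W ≤ m s + J * n s) →
    (PowerSeries.X : PowerSeries K) ^ c ∣ ∑ s, β s * P ^ m s * PowerSeries.C π ^ n s →
    PowerSeries.coeff c (∑ s, β s * P ^ m s * PowerSeries.C π ^ n s) ≠ 0 →
    ((V : ℤ) + H ≤ v.ord (PowerSeries.coeff c (∑ s, β s * P ^ m s * PowerSeries.C π ^ n s))) ∧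
      (((J : ℤ) - 1) * V + W - c ≤
        J * v.ord (PowerSeries.coeff c (∑ s, β s * P ^ m s * PowerSeries.C π ^ n s)))

/-- (G5) **The local estimate in integral coordinates.** Proof. Let `o l m = v.ord (y l - y m)`, digits
`y_l = ∑ c_{i,l} π ^ i + π ^ M η_l` from (G2). Apply (G1) in the ring `A` of the power series with
regular coefficients (a subring of `PowerSeries K`, or `PowerSeries` of the valuation ring `v.O`) to
`ϖ = τ π`, `ϖ' = C π`, `c = τ (c_{i,l})`, `c' = C (c_{i,l})` (`τ = tay D`, (G3); a homomorphism, injective):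
`bd (τ y) (C y)` is a sum of `β (τ π) ^ m (C π) ^ n` with, for all `w₁`, `w₂`, `LS(phi w₁ w₂) ≤
w₁ m + w₂ n` (`dcl c i l = cnt o i l` for `i ≤ M`, so the sum in (G1) is `LS`). Let `V`, `H`, `W` be the
least natural numbers which are at least `LS(phi 1 0)`, `LS(phi 0 1)`, `LS(phi 1 J)`; then (G4) applies
and gives `v.ord Λ ≥ V + H` and `v.ord Λ ≥ V (1 - 1 / J) + (W - c) / J ≥
LS(phi 1 0) + (LS(phi 1 J) - LS(phi 1 0) - c) / J`, which is the claim, since
`gam = phi 1 J - phi 1 0 - J phi 0 1`. (`S_bgc`, `S_dgt`, `S_tyr`, `S_cff` may be assumed.) -/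
def S_wrl : Prop :=
  ∀ (k K : Type) [Field k] [CharZero k] [Field K] [Algebra k K] (v : Place k K)
    (D : Derivation k K K), DerReg v D → ∀ (a b J M c : ℕ), 1 ≤ J → ∀ y : II a b → K,
    Function.Injective y → (∀ l, v.Reg (y l)) → (∀ l m, l ≠ m → v.ord (y l - y m) ≤ M) →
    (PowerSeries.X : PowerSeries K) ^ c ∣
      bd a b (fun l => tay D (y l)) (fun l => PowerSeries.C (y l)) →
    PowerSeries.coeff c (bd a b (fun l => tay D (y l)) (fun l => PowerSeries.C (y l))) ≠ 0 →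
    LS (fun n => (phi 1 0 a b n : ℝ)) M (fun l m => v.ord (y l - y m)) +
        LS (fun n => (phi 0 1 a b n : ℝ)) M (fun l m => v.ord (y l - y m)) ≤
      v.ord (PowerSeries.coeff c (bd a b (fun l => tay D (y l)) (fun l => PowerSeries.C (y l)))) ∧
    LS (fun n => (phi 1 0 a b n : ℝ)) M (fun l m => v.ord (y l - y m)) +
        LS (fun n => (phi 0 1 a b n : ℝ)) M (fun l m => v.ord (y l - y m)) +
        (LS (gam a b J) M (fun l m => v.ord (y l - y m)) - c) / J ≤
      v.ord (PowerSeries.coeff c (bd a b (fun l => tay D (y l)) (fun l => PowerSeries.C (y l))))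

/-- (G6) **The expansion along the diagonal.** `c* = cst φ = ∑_{j ≤ b} j (a + b - 2 j + 1)`. Proof. Let
`V_{a,b}` be the space of the polynomials in `T₁`, `T₂` over `ℚ` of degrees at most `a`, `b`, of dimension
`N = (a + 1) (b + 1) = ∑_{j ≤ b} (a + b - 2 j + 1)` (as `b ≤ a`). For `j ≤ b` and `i ≤ a + b - 2 j` choose a
monomial `M_{i,j} = T₁ ^ s T₂ ^ r`, `s ≤ a - j`, `r ≤ b - j`, `s + r = i`. The `N` polynomials
`(T₁ - T₂) ^ j M_{i,j}` are in `V_{a,b}` and linearly independent (a relation `∑ α_{ij} (T₁ - T₂) ^ j M_{i,j}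
= 0` at `T₁ = T₂ = T` gives `α_{i0} = 0`; divide by `T₁ - T₂` and repeat), so they are a basis, and the
determinant `κ'` of the matrix (with integer coefficients) which expresses them in the monomials
`T₁ ^ c₁ T₂ ^ c₂` is not zero. The value at `T₁ = τ_l`, `T₂ = x_l` is
`X ^ j (y_l + …) ^ j (x_l ^ i + X …) = X ^ j (x_l ^ i y_l ^ j + X …)`. Hence
`κ' * bd a b τ (C x) = X ^ c* (C (det (x_l ^ i y_l ^ j)) + X …)`. The matrix has an inverse with entries in
`(1 / κ') ℤ`; the statement is arranged so that `κ` multiplies the left side. -/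
def S_wrf : Prop :=
  ∀ a b : ℕ, b ≤ a → ∃ (φ : II a b → ℕ × ℕ) (κ : ℤ), Cols a b φ ∧ κ ≠ 0 ∧
    ∀ (A : Type) [CommRing A] (x y : II a b → A) (τ : II a b → PowerSeries A),
    (∀ l, PowerSeries.constantCoeff (τ l) = x l) → (∀ l, PowerSeries.coeff 1 (τ l) = y l) →
    ∃ R : PowerSeries A, (κ : PowerSeries A) * bd a b τ (fun l => PowerSeries.C (x l)) =
      PowerSeries.X ^ cst φ * (PowerSeries.C (wro φ x y) + PowerSeries.X * R)

/-- (G7) **Covariance.** `N = (a + 1) (b + 1)`. Proof. Apply the two identities of `S_cov`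
(`Q41/SU/Stm2.lean`) in the fraction field of `PowerSeries K` (`LaurentSeries K` or
`FractionRing (PowerSeries K)`) to the Moebius map with the entries `tay D (m.α)`, … for the first
coordinate, and to the one with the entries `C (m.α)`, … for the second; `tay D` is a homomorphism
((G3)). So `bd (τ (m x)) (C (m x)) ∏ τ(den x_l) ^ a ∏ C(den x_l) ^ b = τ(det m) ^ (N a / 2) *
C(det m) ^ (N b / 2) bd (τ x) (C x)`, and the factors have nonzero constant terms `den x_l ^ a`, …: compare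
the lowest coefficients. (`S_cov`, `S_tyr` may be assumed.) -/
def S_cvl : Prop :=
  ∀ (k K : Type) [Field k] [CharZero k] [Field K] [Algebra k K] (D : Derivation k K K)
    (a b c : ℕ) (m : Mb K) (x : II a b → K), m.det ≠ 0 → (∀ l, m.den (x l) ≠ 0) →
    (PowerSeries.X : PowerSeries K) ^ c ∣
      bd a b (fun l => tay D (x l)) (fun l => PowerSeries.C (x l)) →
    (PowerSeries.X : PowerSeries K) ^ c ∣
      bd a b (fun l => tay D (m.app (x l))) (fun l => PowerSeries.C (m.app (x l))) ∧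
    PowerSeries.coeff c
        (bd a b (fun l => tay D (m.app (x l))) (fun l => PowerSeries.C (m.app (x l)))) *
        ∏ l, m.den (x l) ^ (a + b) =
      m.det ^ ((b + 1) * (a * (a + 1) / 2) + (a + 1) * (b * (b + 1) / 2)) *
        PowerSeries.coeff c (bd a b (fun l => tay D (x l)) (fun l => PowerSeries.C (x l)))

/-- (G8) **The local estimate for the Wronskian**, in original coordinates. `N = (a + 1) (b + 1)`,
`y = m.app x`. Proof. By (G6) `X ^ cst φ` divides `bd (τ x) (C x)` and `κ` times the coefficient is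
`wro φ x (D x)`, `κ` is a nonzero constant. By (G7)
`v.ord Λ_y + (a + b) ∑ v.ord (den x_l) = (N (a + b) / 2) v.ord (det m) + v.ord Λ_x`, and
`y_l - y_j = det m (x_l - x_j) / (den x_l * den x_j)` gives
`∑_{l ≠ j} v.ord (y_l - y_j) = N (N - 1) v.ord (det m) + ∑_{l ≠ j} v.ord (x_l - x_j) -
2 (N - 1) ∑ v.ord (den x_l)`. So `v.ord Λ_x - ((a + b) / (2 (N - 1))) ∑ v.ord (x_l - x_j)` is the same for
`x` and `y`. Now (G5) for `y`, `∑_{l ≠ j} v.ord (y_l - y_j) = LS (n (n - 1))` (`S_lsq`) and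
`kap n = ((a + b) / (2 (N - 1))) n (n - 1) - phi 0 1 - phi 1 0`. (`S_wrl`, `S_wrf` in the form given,
`S_cvl`, `S_lsq`, `S_tyr` may be assumed.) -/
def S_wrx : Prop :=
  ∀ (k K : Type) [Field k] [CharZero k] [Field K] [Algebra k K] (v : Place k K)
    (D : Derivation k K K), DerReg v D → ∀ (a b J M : ℕ) (φ : II a b → ℕ × ℕ) (κ : ℤ), κ ≠ 0 →
    1 ≤ a → 1 ≤ b → 1 ≤ J →
    (∀ (A : Type) [CommRing A] (x y : II a b → A) (τ : II a b → PowerSeries A),
      (∀ l, PowerSeries.constantCoeff (τ l) = x l) → (∀ l, PowerSeries.coeff 1 (τ l) = y l) →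
      ∃ R : PowerSeries A, (κ : PowerSeries A) * bd a b τ (fun l => PowerSeries.C (x l)) =
        PowerSeries.X ^ cst φ * (PowerSeries.C (wro φ x y) + PowerSeries.X * R)) →
    ∀ (x : II a b → K) (m : Mb K), Function.Injective x → m.det ≠ 0 →
    (∀ l, m.den (x l) ≠ 0 ∧ v.Reg (m.app (x l))) →
    (∀ l j, l ≠ j → v.ord (m.app (x l) - m.app (x j)) ≤ M) →
    wro φ x (fun l => D (x l)) ≠ 0 →
    ((a : ℝ) + b) / (2 * (((a : ℝ) + 1) * (b + 1) - 1)) *
          (∑ l, ∑ j ∈ univ.erase l, (v.ord (x l - x j) : ℝ)) -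
        LS (kap a b) M (fun l j => v.ord (m.app (x l) - m.app (x j))) ≤
      v.ord (wro φ x (fun l => D (x l))) ∧
    ((a : ℝ) + b) / (2 * (((a : ℝ) + 1) * (b + 1) - 1)) *
          (∑ l, ∑ j ∈ univ.erase l, (v.ord (x l - x j) : ℝ)) -
        LS (kap a b) M (fun l j => v.ord (m.app (x l) - m.app (x j))) +
        (LS (gam a b J) M (fun l j => v.ord (m.app (x l) - m.app (x j))) - cst φ) / J ≤
      v.ord (wro φ x (fun l => D (x l)))

/-- (G9) **The local theorem at a place.** It is `S_loc` of `Q41/SU/Stm4.lean` (proof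
`Pool.Agent.Q241.SU.t_L4`, file `Q241/SU/L4.lean`, from `S_lv`, `S_e2`; `S_resc` is not needed) for a
place `v : Place k K`, whose residue field need not be `k`, with one more clause. Proof. Embed `K` in an
algebraically closed ultrametric field `Ω` by `ι` with `‖ι x‖ = exp (-v.ord x)` (completion and
spectral norm: `Pool.Agent.W277.UG.exists_ext`, file `W277/UG/A1.lean`; it is stated for `PlaceData`,
adapt it to one valuation) and apply `S_lv`. The proof of `S_loc` uses only that there are infinitely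
many constants in `k` whose differences are units (`v.ord c = 0` for nonzero constants): for each vector
`X z` of norm `1` at most one constant `c` has `‖X₁(z) - c X₂(z)‖ < 1`, and each integral `w_l` is
congruent to at most one constant. The first clause: `gg = o - A - A' + R / (d (d - 1))` with `o ≥ 0`
and `A, A' ≤ R / (d - 1) ≤ R`. (`S_lv`, `S_e2` may be assumed.) -/
def S_locv : Prop :=
  ∀ d : ℕ, 2 ≤ d → ∃ (N₁ : ℕ) (c' η : ℝ), 0 < c' ∧ c' ≤ 1 ∧ 0 < η ∧
    ∀ (k K : Type) [Field k] [CharZero k] [Field K] [Algebra k K] (v : Place k K) (p q : K[X])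
    (_ : p.natDegree ≤ d) (_ : q.natDegree = d) (_ : IsCoprime p q) (P : Finset K)
    (_ : Stab p q P) (a : K → ℝ)
    (_ : ∀ z ∈ P, (d : ℝ) * a z = v.ord (q.eval z) + a (p.eval z / q.eval z)),
    ∃ R : ℕ,
      (∀ z ∈ P, ∀ z' ∈ P, z ≠ z' → -(2 * (R : ℝ)) ≤ gg v.ord a d p q z z') ∧
      (∀ (J : Type) [Fintype J] [DecidableEq J] (x : J → K), Function.Injective x →
        (∀ l, x l ∈ P) → ∀ n : ℕ, (d : ℝ) ^ (2 * n) ≤ Fintype.card J →
        -(4 * (Fintype.card J : ℝ) ^ 2 * R / (d : ℝ) ^ n) ≤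
          ∑ l, ∑ m ∈ univ.erase l, gg v.ord a d p q (x l) (x m)) ∧
      (R = 0 → ∃ m : Mb K, m.det ≠ 0 ∧ (∀ z ∈ P, m.den z ≠ 0 ∧ v.Reg (m.app z)) ∧
        ∀ z ∈ P, ∀ z' ∈ P, z ≠ z' →
          (v.ord (m.app z - m.app z') : ℝ) = gg v.ord a d p q z z') ∧
      ∀ (J : Type) [Fintype J] [DecidableEq J] (x : J → K), Function.Injective x →
        (∀ l, x l ∈ P) → N₁ ≤ Fintype.card J →
        ∃ m : Mb K, m.det ≠ 0 ∧ (∀ l, m.den (x l) ≠ 0 ∧ v.Reg (m.app (x l))) ∧
          (∀ l, 2 * cnt (fun l l' => v.ord (m.app (x l) - m.app (x l'))) 1 l ≤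
            Fintype.card J) ∧
          (1 ≤ R → ∑ l, ∑ l' ∈ univ.erase l, gg v.ord a d p q (x l) (x l') ≤
            c' * (Fintype.card J : ℝ) ^ 2 * R →
            η * (Fintype.card J : ℝ) ^ 2 * R ≤
              ∑ l, ∑ l' ∈ univ.erase l, (v.ord (m.app (x l) - m.app (x l')) : ℝ))

/-- (G10) **The numerical inequality.** `a = J b`, `N = (a + 1) (b + 1)`, `En` is the energy of the
rows, `c ≤ b N`. Choose `J ≥ 2`, `J ≥ 200 / η`, `J ≥ 2 / c'`, then `n` with `d ^ n ≥ 6400 J / η`, then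
`b ≥ 100 J`, `b ≥ 1000 / η` with `N ≥ N₁`, `N ≥ d ^ (2 n)`. Proof. (1) `kap m ≤ m (m - 1) / b` for
`m ≤ N` and `LS (m (m - 1)) = ∑ o` (`S_lsq`) give the second claim. (2) All the classes of level `≥ 1`
have at most `N / 2` elements, and for `1 ≤ m ≤ N / 2`, by `S_num` with `ν = 1` and `S_phi`,
`gam (J b) b J m - J kap (J b) b m ≥ m (m - 1) / (48 b)` (`phi 1 0 + J phi 0 1 ≤ m (m - 1) / b`,
`kap m ≤ min (2 m) (m (m - 1) / b)`, as in `S_numcore`, `Q41/SU/Stm6.lean`, proof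
`Q128/SU/NumCore.lean`). So `-LS kap + (LS gam - c) / J + (2 / b) En ≥
(1 / (48 b J)) ∑ o - c / J + (2 / b) En`, `c / J ≤ b N / J`. Note `J b² ≤ N ≤ 4 J b²`. If
`En ≤ c' N² R`: `∑ o ≥ η N² R`, `(1 / (48 b J)) η N² R ≥ (b / 48) η N R`, `b N / J ≤ (b / 200) η N R`,
`(2 / b) En ≥ -(8 N² R) / (b d ^ n) ≥ -(32 J b N R) / d ^ n ≥ -(b / 200) η N R`; the sum is at least
`(b / 100) η N R ≥ R`. If `En > c' N² R`: `(2 / b) En ≥ 2 c' J b N R`, and `b N / J ≤ b N R / 2`; since
`c' J ≥ 2` the sum is at least `b N R ≥ R`. (`S_num`, `S_phi`, `S_lsq` may be assumed.) -/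
def S_nmc : Prop :=
  ∀ (d N₁ : ℕ) (c' η : ℝ), 2 ≤ d → 0 < c' → c' ≤ 1 → 0 < η → ∃ J b n : ℕ, 2 ≤ J ∧ 1 ≤ b ∧
    N₁ ≤ (J * b + 1) * (b + 1) ∧ d ^ (2 * n) ≤ (J * b + 1) * (b + 1) ∧
    ∀ (M : ℕ) (o : II (J * b) b → II (J * b) b → ℤ), (∀ l j, l ≠ j → 0 ≤ o l j ∧ o l j ≤ M) →
      (0 ≤ 2 / (b : ℝ) * (∑ l, ∑ j ∈ univ.erase l, (o l j : ℝ)) - LS (kap (J * b) b) M o) ∧
      ∀ (R c : ℕ) (En : ℝ), 1 ≤ R → c ≤ b * ((J * b + 1) * (b + 1)) →
        (∀ l, 2 * cnt o 1 l ≤ (J * b + 1) * (b + 1)) →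
        -(4 * (((J * b + 1) * (b + 1) : ℕ) : ℝ) ^ 2 * R / (d : ℝ) ^ n) ≤ En →
        (En ≤ c' * (((J * b + 1) * (b + 1) : ℕ) : ℝ) ^ 2 * R →
          η * (((J * b + 1) * (b + 1) : ℕ) : ℝ) ^ 2 * R ≤
            ∑ l, ∑ j ∈ univ.erase l, (o l j : ℝ)) →
        (R : ℝ) ≤ 2 / (b : ℝ) * En - LS (kap (J * b) b) M o +
          (LS (gam (J * b) b J) M o - c) / J

end Pool.Agent.Q41.GT
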