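import Pool.Agent.Q41.GT.Stm1

/-!
# Statements, part 2: the forms and their orders, nondegeneracy
-/

namespace Pool.Agent.Q41.GT

open Finset Polynomial FF
open Pool.Agent.W602.GT
open Pool.Agent.W603.LV (Ge)
open Pool.Agent.Q41.SU
open Pool.Agent.W277.UH (ConjConst q₀)

universe u

/-- (H1) **Algebraic solution of the functional equation.** Proof. Let `f = p / q`, `m = |P|`,
`L = m!`, `E₀ = d ^ m (d ^ L - 1)` and, for `z` in `P`,
`α z = ∏_{k < m} q(f^k z) ^ (d ^ (m - k - 1) (d ^ L - 1)) * ∏_{k < L} q(f^(m+k) z) ^ (d ^ (L - k - 1))`.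
As `f^m z` is periodic with a period dividing `L` one has `q(f^(m+L) z) = q(f^m z)`, and
`α z ^ d = q(z) ^ E₀ * α (f z)`: comparing the exponents of `q(f^k z)`, `k < m`: in `α z ^ d` it is
`d ^ (m - k) (d ^ L - 1)`, in `α (f z)` it is `d ^ (m - k) (d ^ L - 1)` for `1 ≤ k`, and for `k = 0` one has
`d ^ m (d ^ L - 1) = E₀`; the exponent of `q(f^m z)` is `d ^ L` in `α z ^ d`, and in `α (f z)` it is
`(d ^ L - 1)` (from `k = m - 1` of the first product) plus `1` (from `k = L - 1` of the second product,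
`f^(m+L) z = f^m z`); the exponents of `q(f^(m+k) z)`, `1 ≤ k < L`, are `d ^ (L - k)` on both sides. -/
def S_alp : Prop :=
  ∀ (d : ℕ), 2 ≤ d → ∀ n : ℕ, ∃ E₀ : ℕ, 1 ≤ E₀ ∧ ∀ (K : Type) [Field K] (p q : K[X])
    (P : Finset K), Stab p q P → P.card = n →
    ∃ α : K → K, (∀ z, α z ≠ 0) ∧ ∀ z ∈ P, α z ^ d = q.eval z ^ E₀ * α (p.eval z / q.eval z)

/-- (H2) **The orders of `gfn`.** Proof. `a z = v.ord (α z) / E₀` solves the functional equation; the
rest is `v.ord` of products and powers (`resultant q p d d ≠ 0` because `p`, `q` are coprime and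
`q.natDegree = d`). -/
def S_gfn : Prop :=
  ∀ (k K : Type) [Field k] [Field K] [Algebra k K] (v : Place k K) (E₀ d : ℕ), 1 ≤ E₀ → 2 ≤ d →
    ∀ (p q : K[X]), p.natDegree ≤ d → q.natDegree = d → IsCoprime p q → ∀ P : Finset K,
    Stab p q P → ∀ α : K → K, (∀ z, α z ≠ 0) →
    (∀ z ∈ P, α z ^ d = q.eval z ^ E₀ * α (p.eval z / q.eval z)) →
    (∀ z ∈ P, (d : ℝ) * (v.ord (α z) / E₀) =
      v.ord (q.eval z) + v.ord (α (p.eval z / q.eval z)) / E₀) ∧
    ∀ z ∈ P, ∀ z' ∈ P, z ≠ z' → gfn E₀ d α p q z z' ≠ 0 ∧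
      (v.ord (gfn E₀ d α p q z z') : ℝ) =
        E₀ * (d * ((d : ℝ) - 1)) * gg v.ord (fun y => v.ord (α y) / E₀) d p q z z'

/-- (H3) **The orders of the forms and of the functions.** `R v` is the number of (G9) for the place
`v` and `a z = v.ord (α z) / E₀`. Proof. Constants: `N₁`, `c'`, `η` from (G9), `J`, `b`, `n` from (G10),
`a = J b`, `N = (a + 1) (b + 1)`, `φ`, `κ` from (G6) (`b ≤ a`), `E₀` from (H1) for `n = |P|`,
`e = E₀ d (d - 1)`. (1) Let `x` be rows in `P`, `En = ∑_{l ≠ j} gg (x l) (x j)`, `Λ = wro φ x (D x)`. By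
(H2) `v.ord (Phi …) = 2 (N - 1) b e v.ord Λ + 4 (N - 1) e En - (a + b) b e ∑ v.ord (x l - x j)
= 2 (N - 1) b e (v.ord Λ - ((a + b) / (2 (N - 1))) ∑ v.ord (x l - x j) + (2 / b) En)`. If `R v ≥ 1`
take for `m` the Moebius map of the last clause of (G9) for `x`, `o l j = v.ord (m.app (x l) -
m.app (x j))`, `M` large: by (G8) (second inequality) and (G10) the bracket is at least `R v`
(`cst φ ≤ b N`), so `v.ord (Phi …) ≥ R v`. If `R v = 0` take `m` from the third clause of (G9); then
`∑ o = En`, and by (G8) (first inequality) and (G10) the bracket is at least `0`. (2) Let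
`𝒢 = ∏_{z ≠ z' in P} gfn z z'`, `En_P = ∑_{z ≠ z'} gg z z'`, `v.ord 𝒢 = e En_P`, `m = |P|`. If `R v = 0` all
`gg ≥ 0` (third clause of (G9)), so `v.ord 𝒢 ≥ 0` and, for a cross ratio `c` of four points
`v.ord c = gg x x0 + gg x1 x2 - gg x x2 - gg x1 x0 ≥ -En_P` (the pairs `{x, x2}`, `{x1, x0}` are
different if `x ≠ x1`, and `c = 1` if `x = x1`), hence `v.ord (c 𝒢) ≥ 0`. If `R v ≥ 1`: all
`gg ≥ -2 R v`, so `En_P ≥ -2 m² R v`, `v.ord 𝒢 ≥ -2 e m² R v`, and `gg x x2 + gg x1 x0 ≤
(En_P + 2 m² R v)` etc., `v.ord (c 𝒢) ≥ -4 R v - En_P - 2 m² R v + e En_P ≥ -C' R v` with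
`C' = 4 + 2 m² + 2 e m²`. (`S_locv`, `S_nmc`, `S_wrf`, `S_wrx`, `S_alp`, `S_gfn` may be assumed.) -/
def S_ords : Prop :=
  ∀ d : ℕ, 2 ≤ d → ∃ (a b : ℕ) (φ : II a b → ℕ × ℕ), 1 ≤ b ∧ b ≤ a ∧ 2 ≤ a ∧ Cols a b φ ∧
    1 ≤ cst φ ∧ ∀ n : ℕ, ∃ (E₀ C' : ℕ), 1 ≤ E₀ ∧
    ∀ (k K : Type) [Field k] [CharZero k] [Field K] [Algebra k K] (p q : K[X]),
    p.natDegree ≤ d → q.natDegree = d → IsCoprime p q → ∀ P : Finset K, Stab p q P → P.card = n →
    ∃ (α : K → K) (R : Place k K → ℕ), (∀ z, α z ≠ 0) ∧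
      (∀ (v : Place k K) (D : Derivation k K K), DerReg v D → ∀ x : II a b → K,
        Function.Injective x → (∀ l, x l ∈ P) → Ge v (R v) (Phi φ E₀ d α p q x D)) ∧
      ∃ 𝒢 : K, 𝒢 ≠ 0 ∧ ∀ v : Place k K, Ge v (-((C' : ℤ) * R v)) 𝒢 ∧
        ∀ c ∈ crs P, Ge v (-((C' : ℤ) * R v)) (c * 𝒢)

/-- (H4) **Nondegeneracy.** Proof. Let `E'` be the field of constants of `D` (algebraically closed in
`E`, so algebraically closed as `E` is; `Pool.Agent.W602.GT.consts`, `overConsts`). By hypothesis `NDH`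
holds. If the vectors `(x ^ i (D x) ^ j)_c` in `II a b → E`, `x` in `P`, do not span the space there is a
nonzero linear form which vanishes on them, that is (as `φ` is injective) a nonzero `G` in `E[X][X]`,
`G = ∑_c α_c X ^ i Y ^ j`, of degree at most `b` in the outer variable, with coefficients of degree at
most `a + b`, and `G(x, D x) = 0` for all `x` in `P`; this contradicts `S_nd` with `β = b`,
`H = a + b`, `ε = 1 / 2` if `P` is large. So some `N` of the vectors form a basis: injective rows with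
nonzero determinant. (`S_nd` may be assumed; it is `Pool.Agent.Q103.FS.t_nd0`.) -/
def S_ndr : Prop :=
  ∀ (d a b : ℕ) (φ : II a b → ℕ × ℕ), Cols a b φ → ∃ N₀ : ℕ,
    ∀ (k' E : Type) [Field k'] [CharZero k'] [IsAlgClosed k'] [Field E] [Algebra k' E]
    (D : Derivation k' E E) (p q : E[X]) (P : Finset E), NDH k' D d p q P → N₀ ≤ P.card →
    ∃ x : II a b → E, Function.Injective x ∧ (∀ l, x l ∈ P) ∧ wro φ x (fun l => D (x l)) ≠ 0

/-- (H5) **Cross ratios of preperiodic points are algebraic over the cross ratios of a large stable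
subset.** Proof. Let `E` be an algebraic closure of `K`, `k₁` the algebraic closure of
`IntermediateField.adjoin k (crs P')` in `E`. The cross ratios of the points of `P'` are in `k₁`, so
`Pool.Agent.W277.UH.conj_of_cross` gives `ConjConst k₁ p q d` over `E` (`P'` has at least `3 d + 4`
elements), and by `S_crc` all the cross ratios of the points of `P` are in `k₁`, so algebraic over
`adjoin k (crs P')`. So `K`, algebraic over `adjoin k (crs P)`, is algebraic over
`adjoin k (crs P')`. (`S_crc` may be assumed.) -/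
def S_crs : Prop :=
  ∀ (k K : Type) [Field k] [CharZero k] [Field K] [Algebra k K] (d : ℕ) (p q : K[X]), 2 ≤ d →
    p.natDegree ≤ d → q.natDegree = d → IsCoprime p q → ∀ P P' : Finset K, P' ⊆ P → Stab p q P →
    Stab p q P' → 3 * d + 4 ≤ P'.card →
    Algebra.IsAlgebraic (IntermediateField.adjoin k (crs P)) K →
    Algebra.IsAlgebraic (IntermediateField.adjoin k (crs P')) K

/-- (H6) **Nondegeneracy for all vector fields.** `E` is an algebraic closure of `K`. Proof. Let `E'` be
the field of constants of `D` in `E`. It is algebraically closed. If `ConjConst E' p q d` (over `E`)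
then by `S_crc` the cross ratios of the points of `P` are in `E'`, so `D` vanishes on
`adjoin k (crs P)` and, `K` being algebraic over this field and of characteristic zero, on `K`
(`Pool.Agent.W602.GT.alg_consts` and the proof of `der_eq_zero`), a contradiction. So `NDH E' D d …` holds for
the images of `p`, `q`, `P` in `E` and (H4) applies. (`S_ndr`, `S_crc` may be assumed.) -/
def S_ndw : Prop :=
  ∀ (d a b : ℕ) (φ : II a b → ℕ × ℕ), 2 ≤ d → Cols a b φ → ∃ N₀ : ℕ,
    ∀ (k K E : Type) [Field k] [CharZero k] [Field K] [Algebra k K] [Field E] [Algebra K E]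
    [Algebra k E] [IsScalarTower k K E] [IsAlgClosure K E] (p q : K[X]), p.natDegree ≤ d →
    q.natDegree = d → IsCoprime p q → ∀ P : Finset K, Stab p q P → Sur p q P → N₀ ≤ P.card →
    Algebra.IsAlgebraic (IntermediateField.adjoin k (crs P)) K →
    ∀ D : Derivation k E E, (∃ x : K, D (algebraMap K E x) ≠ 0) →
    ∃ x : II a b → K, Function.Injective x ∧ (∀ l, x l ∈ P) ∧
      wro φ (fun l => algebraMap K E (x l)) (fun l => D (algebraMap K E (x l))) ≠ 0

/-- (H7) **The data of a large stable set.** `F i` are functions of a derivation `D`, given by a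
homogeneous polynomial `Q` of degree `C` in the values of `D` at a transcendence basis `t`, without
common zeros over an algebraic closure. Proof. Take `a`, `b`, `φ` from (H3), `N₀` from (H6) and
`3 d + 4`, the maximum; by `S_red` replace `P` by a stable subset `P'` with `Sur p q P'` and at least
`N₀` elements, using (H5). `ι` is the set of the injective maps `x : II a b → K` with values in `P'`,
`F x D = Phi … x D`, `C = 2 (N - 1) b e cst φ`, `H = {𝒢} ∪ {c 𝒢 | c in crs P'}` (finite). The field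
`adjoin k H` contains `crs P'`. Polynomial: `D (x l) = ∑_j D(t_j) ∂_j (x l)` with the dual derivations
`∂_j` (`Pool.Agent.W602.GT.exists_dual`, `der_ext`), so `wro φ x (D x)` is a homogeneous polynomial of degree
`cst φ` in the `D(t_j)`. No common zero: let `λ` be in `E ^ w`, not zero; `t` is a transcendence basis of
`E` over `k`, so there is a derivation `D'` of `E` with `D'(t_j) = λ_j` (`exists_der`), which is not zero
on `K`; by (H6) some `wro φ x (D' x) ≠ 0`, and `Q_x(λ)` is this value to a power times a nonzero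
element (`D' (x l) = ∑ λ_j ∂_j (x l)`: both sides are derivations `K → E` which agree on `t`). `R`, `C'`
from (H3). (`S_ords`, `S_ndw`, `S_crs`, `S_red` may be assumed.) -/
def S_data : Prop :=
  ∀ d : ℕ, 2 ≤ d → ∃ B : ℕ, ∀ (k K : Type) [Field k] [CharZero k] [Field K] [Algebra k K]
    (p q : K[X]), p.natDegree ≤ d → q.natDegree = d → IsCoprime p q → ∀ P : Finset K,
    Stab p q P → B ≤ P.card → Algebra.IsAlgebraic (IntermediateField.adjoin k (crs P)) K →
    ∃ (ι : Type) (_ : Fintype ι) (F : ι → Derivation k K K → K) (C C' : ℕ)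
      (R : Place k K → ℕ) (H : Finset K), 1 ≤ C ∧
      Algebra.IsAlgebraic (IntermediateField.adjoin k (H : Set K)) K ∧
      (∀ v, ∀ h ∈ H, Ge v (-((C' : ℤ) * R v)) h) ∧
      (∀ v D, DerReg v D → ∀ i, Ge v (R v) (F i D)) ∧
      ∀ (w : ℕ) (t : Fin w → K), IsTranscendenceBasis k t →
        ∃ Q : ι → MvPolynomial (Fin w) K, (∀ i, (Q i).IsHomogeneous C) ∧
          (∀ i D, F i D = MvPolynomial.eval (fun j => D (t j)) (Q i)) ∧
          ∀ lam : Fin w → AlgebraicClosure K, lam ≠ 0 → ∃ i, MvPolynomial.aeval lam (Q i) ≠ 0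

end Pool.Agent.Q41.GT
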