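import Pool.Agent.Q41.GT.Mod

/-!
# Statements, part 5: geometry of the moduli spaces
-/

namespace Pool.Agent.Q41.GT

open Finset Polynomial
open Pool.Agent.W277.UH (ratP1)

/-- (R1) **The homogeneous lift.** Proof. If `v 1 ≠ 0`, `z = v 0 / v 1`, then
`lift p q d v = v 1 ^ d (p(z), q(z))`, if `v 1 = 0` it is `v 0 ^ d (p_d, q_d)`; these are not zero as `p`, `q`
are coprime and `max (deg p, deg q) = d`. Iterate. Evaluation at `v` is a ring homomorphism, so
`eval v ((lift p q d)^[k] X i) = (lift p q d)^[k] v i`, and `v 1 * F 0 = v 0 * F 1` iff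
`pt F = pt v` for `F`, `v` not zero. -/
def S_hom : Prop :=
  ∀ (K : Type) [Field K] (d : ℕ) (p q : K[X]), IsCoprime p q → max p.natDegree q.natDegree = d →
    ∀ v : Fin 2 → K, v ≠ 0 → ∀ k : ℕ, (lift p q d)^[k] v ≠ 0 ∧
      (ratP1 p q d)^[k] (pt v) = pt ((lift p q d)^[k] v) ∧
      (MvPolynomial.eval v (per p q d k) = 0 ↔ (ratP1 p q d)^[k] (pt v) = pt v)

/-- (R2) **The generic point of a subset of the moduli space.** Proof. Let `B_m` in
`MvPolynomial (Sg d) k` be the second coordinate of the `m`-th iterate at `(1, 0)` of the lift of the map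
with the coefficients `MvPolynomial.X`, and `Res` the resultant (of degrees `d`, `d`) of numerator and
denominator. For a field `L` over `k` and `y : Sg d → L` (for instance `y` in `W`, `L = k`, or `y = x`,
`L = K`): `num d y`, `den d y` are coprime iff `Res(y) ≠ 0` (`den` is monic of degree `d`), and then (R1)
`f_y ^ m (∞) = ∞` iff `B_m(y) = 0`. `W` is not empty (`1` is not in its vanishing ideal). `B_n` vanishes on
`W`, so `B_n(x) = 0`; `Res` and `B_m`, `0 < m < n`, vanish at no point of `W`, so they are not in the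
vanishing ideal, so they do not vanish at `x`. (`S_hom` may be assumed.) -/
def S_gnp : Prop :=
  ∀ (k K : Type) [Field k] [Field K] [Algebra k K] (d n : ℕ), 2 ≤ d → 1 ≤ n →
    ∀ W ⊆ V d n k, ∀ x : Sg d → K, FunField W K x → x ∈ V d n K

/-- (R3) **The function field.** Clear. -/
def S_fun : Prop :=
  ∀ (k σ : Type) [Field k] (W : Set (σ → k)) (P : Ideal (MvPolynomial σ k)) [P.IsPrime],
    P = MvPolynomial.vanishingIdeal k W →
    FunField W (FractionRing (MvPolynomial σ k ⧸ P))
      (fun i => algebraMap (MvPolynomial σ k ⧸ P) _ (Ideal.Quotient.mk P (MvPolynomial.X i)))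

/-- (R4) **Positive dimension.** Proof. `K` is generated by the `x i`, so its transcendence degree is
finite. If it is zero `K` is algebraic over the algebraically closed field `k`, so `x i` is the image of
a constant `c i`, and `X i - C (c i)` vanishes on `W`: `W` has at most one point. -/
def S_pos : Prop :=
  ∀ (k σ : Type) [Field k] [IsAlgClosed k] [Fintype σ] (W : Set (σ → k)), W.Infinite →
    ∀ (K : Type) [Field K] [Algebra k K] (x : σ → K), FunField W K x →
    ∃ w : ℕ, 1 ≤ w ∧ Algebra.trdeg k K = w

/-- (R5) **Components.** `A = MvPolynomial (Sg d) k`. Proof. Let `I` be the vanishing ideal of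
`V = V d n k`. It is radical, so it is the intersection of its finitely many minimal primes, and `V` is in
the union of their zero sets. Let `h` be in all the other minimal primes and not in `P`. If `g` vanishes
on `V ∩ Z(P)` then `g h` vanishes on `V`, so it is in `I`, so in `P`, so `g` is in `P`: this is the first
claim. With `B_m` and `Res` of (R2) let `H = Res * ∏_{0 < m < n} B_m`: `V` is the set of the points with
`H ≠ 0`, `B_n = 0`, and `H` is not in `P` (by the first claim: `H` vanishes at no point of `V ∩ Z(P)`, which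
is not empty). `P` is a minimal prime over `(B_n)`: if `Q ≤ P` is prime and contains `B_n` then `H` is not
in `Q`; if `g` is in `I` then `g H` vanishes on `Z(Q)`, so it is in `Q` (Nullstellensatz,
`MvPolynomial.IsPrime.vanishingIdeal_zeroLocus`), so `g` is in `Q`; hence `I ≤ Q ≤ P` and `Q = P`.
`B_n ≠ 0`: for the map `1 / (X ^ d - X ^ (d - 1) + 1)` the point `∞` is mapped to `0`, `0` to `1`, `1` to `1`, so
`B_n ≠ 0` at this point. So the transcendence degree of `A / P` is `2 d - 1 - 1`:
`Pool.Agent.W338.DZ.trdeg_mod` or `dom` (file `W338/DZ/DIM.lean`; over `ℂ` and `Fin s`, adapt) for the lower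
bound, and it is less than `2 d - 1 = |Sg d|` as `P ≠ 0`. (`P` is generated by an irreducible factor of
`B_n`.) (`S_hom` may be assumed.) -/
def S_cmp : Prop :=
  ∀ (k : Type) [Field k] [IsAlgClosed k] (d n : ℕ), 2 ≤ d → 1 ≤ n →
    ∀ (P : Ideal (MvPolynomial (Sg d) k)) [P.IsPrime],
    P ∈ (MvPolynomial.vanishingIdeal k (V d n k)).minimalPrimes →
    P = MvPolynomial.vanishingIdeal k (V d n k ∩ MvPolynomial.zeroLocus k P) ∧
      Algebra.trdeg k (FractionRing (MvPolynomial (Sg d) k ⧸ P)) = (2 * d - 2 : ℕ)

/-- (R6) **Normal form**, from (L4) `S_nrm`. Proof. Existence: (L4) gives a conjugate `p' / q'` with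
`∞ ↦ 0 ↦ 1`; so `p'` has degree less than `d`, `q'` degree `d`, divide both by the leading coefficient
of `q'`; then `p'(0) = q'(0)`, so `p' = num d x`, `q' = den d x` for some `x`. Uniqueness: two conjugates in
normal form are conjugate by a Moebius map (composition) which fixes `∞`, `0`, `1`, so it is the identity
((L4), second part, or directly: a Moebius map with three fixed points), so `num d x / den d x` and
`num d x' / den d x'` have the same values, so (the field is infinite, both pairs are coprime, the
denominators are monic of degree `d`) they are equal, and `x = x'`. (`S_nrm` may be assumed.) -/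
def S_nfm : Prop :=
  ∀ (K : Type) [Field K] [Infinite K] (d n : ℕ), 2 ≤ d → 3 ≤ n → ∀ (p q : K[X]) (z : Option K),
    IsCoprime p q → max p.natDegree q.natDegree = d →
    Function.minimalPeriod (ratP1 p q d) z = n →
    ∃! x : Sg d → K, x ∈ V d n K ∧ Conj d p q z (num d x) (den d x) none

/-- (R7) **The moduli spaces are not empty.** Proof. (R6) for `p = X ^ d`, `q = 1` and `z` a primitive
root of unity of order `d ^ n - 1`: `z ^ (d ^ m) = z` iff `d ^ n - 1` divides `d ^ m - 1`.
(`S_nfm` may be assumed.) -/
def S_nem : Prop := ∀ d n : ℕ, 2 ≤ d → 3 ≤ n → (V d n ℂ).Nonempty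

/-- (R8) **Simple periodic points for almost all members of a pencil.** `p_t = (1 - t) p + t X ^ d`,
`q_t = (1 - t) q + t`. Proof. The coefficients of `c_t = ln v u (per p_t q_t d k)` are polynomials in `t`,
the coefficient of `X ^ (d ^ k + 1)` is `eval u (per p_t q_t d k)` (`per` is homogeneous of degree
`d ^ k + 1`), not zero at `t = 1`. Let `R(t)` be the resultant (of degrees `d ^ k + 1`, `d ^ k`) of `c_t` and its
derivative and `R'(t)` the resultant (of degrees `d`, `d`) of `p_t` and `q_t`, polynomials in `t`.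
`R'(1) ≠ 0`. `R(1) ≠ 0`: otherwise `c_1` and its derivative have a common zero `s`; with `w = v + s u`,
`Φ = Y X ^ m - X Y ^ m = per (X ^ d) 1 d k`, `m = d ^ k ≥ 2`, both `Φ(w)` and the derivative in the direction
`u` vanish, so by Euler's identity both partial derivatives `m Y X ^ (m - 1) - Y ^ m` and
`X ^ m - m X Y ^ (m - 1)` vanish at `w`; if one coordinate of `w` is zero so is the other; if not,
`m X ^ (m - 1) = Y ^ (m - 1)`, `X ^ (m - 1) = m Y ^ (m - 1)` give `m ^ 2 = 1`. Let `T` be the set of zeros of
these polynomials. -/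
def S_sqf : Prop :=
  ∀ d n : ℕ, 2 ≤ d → 1 ≤ n → ∀ p q : ℂ[X], max p.natDegree q.natDegree = d →
    ∀ v u : Fin 2 → ℂ, v 0 * u 1 - v 1 * u 0 ≠ 0 →
    (∀ k ∈ n.divisors, MvPolynomial.eval u (per (X ^ d : ℂ[X]) 1 d k) ≠ 0) →
    ∃ T : Finset ℂ, ∀ t : ℂ, t ∉ T →
      IsCoprime (C (1 - t) * p + C t * X ^ d) (C (1 - t) * q + C t) ∧
      max (C (1 - t) * p + C t * X ^ d).natDegree (C (1 - t) * q + C t).natDegree = d ∧
      ∀ k ∈ n.divisors,
        (ln v u (per (C (1 - t) * p + C t * X ^ d) (C (1 - t) * q + C t) d k)).natDegree =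
          d ^ k + 1 ∧
        (ln v u (per (C (1 - t) * p + C t * X ^ d) (C (1 - t) * q + C t) d k)).Separable

/-- (R9) **The dynatomic polynomial of a map with simple periodic points.** Proof. Let `s` be in `ℂ`,
`w = v + s u` (not zero), `m` the minimal period of `pt w`. By (R1) `s` is a zero of
`c_k = ln v u (per p q d k)` iff `m ∣ k`, `m ≥ 1`, and it is simple. So the multiplicity of `s` in
`∏_{μ(n/k)=1} c_k` minus its multiplicity in `∏_{μ(n/k)=-1} c_k` is `∑_{k ∣ n, m ∣ k} μ(n / k)`, which is `1` if
`m = n` and `0` otherwise. So the second product divides the first, and at the zeros of the quotient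
`m = n`. (`S_hom` may be assumed.) -/
def S_mob : Prop :=
  ∀ d n : ℕ, 2 ≤ d → 1 ≤ n → ∀ p q : ℂ[X], IsCoprime p q → max p.natDegree q.natDegree = d →
    ∀ v u : Fin 2 → ℂ, v 0 * u 1 - v 1 * u 0 ≠ 0 →
    (∀ k ∈ n.divisors, (ln v u (per p q d k)).natDegree = d ^ k + 1 ∧
      (ln v u (per p q d k)).Separable) →
    ∃ G : ℂ[X], G * ∏ k ∈ n.divisors with ArithmeticFunction.moebius (n / k) = -1,
        ln v u (per p q d k) =
      ∏ k ∈ n.divisors with ArithmeticFunction.moebius (n / k) = 1, ln v u (per p q d k) ∧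
      ∀ s : ℂ, G.eval s = 0 →
        Function.minimalPeriod (ratP1 p q d) (pt fun i => v i + s * u i) = n

/-- (R10) **The pairs with exact period `n` are dense in the pairs with formal period `n`.** Proof.
Choose `u` with `v 0 * u 1 - v 1 * u 0 ≠ 0`, `eval u (per (X ^ d) 1 d k) ≠ 0` and
`eval u (per p q d k) ≠ 0` for all `k` in `n.divisors` (the forms are not zero by (R1), `ℂ` is infinite).
Let `p_t`, `q_t` be as in (R8), `A_t`, `B_t` the two products of the `c_k` for `p_t`, `q_t`, over `μ = 1` and
`μ = -1`. The leading coefficient `b(t)` of `B_t` is a polynomial in `t`, `b(0) ≠ 0`. Let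
`U = {t | b(t) ≠ 0}`, open, and `R` the ring `C(U, ℂ)` of the continuous functions. Over `R`,
`B / b` is monic, `A = G B + ρ` with the quotient and the remainder of the division by `B / b`
(`Polynomial.divByMonic`, `modByMonic`, compatible with the evaluations `R → ℂ` at the points of `U`). For
`t` in `U`, not in `T`, `ρ_t = 0` by (R9), so `ρ = 0` by continuity. So `A_t = G_t B_t` for all `t` in `U` with
`G_t` of a fixed degree `≤ N` and coefficients continuous in `t`; its leading coefficient (the quotient of
those of `A_t` and `B_t`, of fixed degrees) is `a(t) / b(t)`, not zero near `0`. At `t = 0`: `v` has formal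
period `n`, so `ln v u g * B_0 = A_0 = G_0 B_0`, `G_0 = ln v u g`, `G_0(0) = eval v g = 0`. So `G_0` is not a
constant, the degree `e` of `G_t` is at least `1` and the product of the absolute values of the zeros of
`G_t` is `|G_t(0) / lead|`, which tends to `0` for `t → 0`: for small `t` not in `T` there is a zero `s` of `G_t`
with `|s|` small. By (R9) `v' = v + s u` has the exact period `n` for `p_t / q_t`.
(`S_hom`, `S_sqf`, `S_mob` may be assumed.) -/
def S_dns : Prop :=
  ∀ d n : ℕ, 2 ≤ d → 1 ≤ n → ∀ (p q : ℂ[X]) (v : Fin 2 → ℂ), IsCoprime p q →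
    max p.natDegree q.natDegree = d → v ≠ 0 → Formal p q d n v → ∀ ε : ℝ, 0 < ε →
    ∃ (p' q' : ℂ[X]) (v' : Fin 2 → ℂ), IsCoprime p' q' ∧ max p'.natDegree q'.natDegree = d ∧
      v' ≠ 0 ∧ Function.minimalPeriod (ratP1 p' q' d) (pt v') = n ∧
      (∀ i, ‖p'.coeff i - p.coeff i‖ < ε ∧ ‖q'.coeff i - q.coeff i‖ < ε) ∧
      ∀ i, ‖v' i - v i‖ < ε

end Pool.Agent.Q41.GT
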