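import Pool.Agent.Q41.GT.All
import Pool.Agent.Q41.GT.Fin
import Pool.Agent.Q176.GT.R1
import Pool.Agent.Q176.GT.R3
import Pool.Agent.Q162.GT.Gnp
import Pool.Agent.Q162.GT.Cmp
import Pool.Agent.Q162.GT.Sqf
import Pool.Agent.Q203.GT.Mob
import Pool.Agent.Q203.GT.Dns
import Pool.Agent.Q225.GT.Nem
import Pool.Agent.Q174.GT.Nfm
import Pool.Agent.Q68.GT.Nrm

/-!
# The moduli spaces of large level: final form
-/

namespace Pool.Agent.Q41.GT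

open Finset Polynomial
open Pool.Agent.W277.UH (ratP1)
open Pool.Agent.W602.GT

theorem b_gnp : S_gnp := Pool.Agent.Q162.GT.gnp Pool.Agent.Q176.GT.R1.hom

theorem b_cmp : S_cmp := Pool.Agent.Q162.GT.cmp Pool.Agent.Q176.GT.R1.hom

theorem b_mob : S_mob := Pool.Agent.Q203.GT.t_mob Pool.Agent.Q176.GT.R1.hom

theorem b_dns : S_dns :=
  Pool.Agent.Q203.GT.t_dns Pool.Agent.Q176.GT.R1.hom Pool.Agent.Q162.GT.sqf b_mob

theorem b_nfm : S_nfm := Pool.Agent.Q174.GT.nfm Pool.Agent.Q68.GT.nrm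

theorem b_nem : S_nem := Pool.Agent.Q225.GT.nem b_nfm

/-- see `Pool/Agent/Results/MP_8d6173_ag/GeneralTypeLargePeriod.lean` -/
theorem top_gt (d : ℕ) (hd : 2 ≤ d) : ∃ N : ℕ, ∀ n, N ≤ n →
    (V d n ℂ).Nonempty ∧
    (∀ (p q : ℂ[X]) (z : Option ℂ), IsCoprime p q → max p.natDegree q.natDegree = d →
      Function.minimalPeriod (ratP1 p q d) z = n →
      ∃! x : Sg d → ℂ, x ∈ V d n ℂ ∧ Conj d p q z (num d x) (den d x) none) ∧
    (∀ (p q : ℂ[X]) (v : Fin 2 → ℂ), IsCoprime p q → max p.natDegree q.natDegree = d → v ≠ 0 →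
      Formal p q d n v → ∀ ε : ℝ, 0 < ε →
      ∃ (p' q' : ℂ[X]) (v' : Fin 2 → ℂ), IsCoprime p' q' ∧ max p'.natDegree q'.natDegree = d ∧
        v' ≠ 0 ∧ Function.minimalPeriod (ratP1 p' q' d) (pt v') = n ∧
        (∀ i, ‖p'.coeff i - p.coeff i‖ < ε ∧ ‖q'.coeff i - q.coeff i‖ < ε) ∧
        ∀ i, ‖v' i - v i‖ < ε) ∧
    (∀ (P : Ideal (MvPolynomial (Sg d) ℂ)) [P.IsPrime],
      P ∈ (MvPolynomial.vanishingIdeal ℂ (V d n ℂ)).minimalPrimes →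
      GeneralType ℂ (FractionRing (MvPolynomial (Sg d) ℂ ⧸ P)) (2 * d - 2)) ∧
    ∀ (P : Ideal (MvPolynomial (Sg d) ℂ)) [P.IsPrime] (W : Set (Sg d → ℂ)), W ⊆ V d n ℂ →
      W.Infinite → P = MvPolynomial.vanishingIdeal ℂ W →
      ∃ w, 1 ≤ w ∧ GeneralType ℂ (FractionRing (MvPolynomial (Sg d) ℂ ⧸ P)) w := by
  obtain ⟨B, hB3, hB⟩ := subvar0 a_prep b_gnp Pool.Agent.Q176.GT.R3.fun_ d hd
  refine ⟨B, fun n hn => ⟨b_nem d n hd (by omega), ?_, ?_, ?_, ?_⟩⟩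
  · exact b_nfm ℂ d n hd (by omega)
  · exact b_dns d n hd (by omega)
  · intro P _ hP
    obtain ⟨h1, h2⟩ := b_cmp ℂ d n hd (by omega) P hP
    exact hB n hn ℂ P _ Set.inter_subset_left h1 (2 * d - 2) (by omega) h2
  · intro P _ W hW hinf hP
    obtain ⟨w, hw, htr⟩ := Pool.Agent.Q176.GT.R3.pos ℂ (Sg d) W hinf _ _
      (Pool.Agent.Q176.GT.R3.fun_ ℂ (Sg d) W P hP)
    exact ⟨w, hw, hB n hn ℂ P W hW hP w hw htr⟩

/-- see `Pool/Agent/Results/MP_0dd0d9_ag/MapsOfTheLine.lean` -/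
theorem top_gon (d : ℕ) (hd : 2 ≤ d) :
    (∀ n, 3 ≤ n → (V d n ℂ).Nonempty ∧
      (∀ (p q : ℂ[X]) (z : Option ℂ), IsCoprime p q → max p.natDegree q.natDegree = d →
        Function.minimalPeriod (ratP1 p q d) z = n →
        ∃! x : Sg d → ℂ, x ∈ V d n ℂ ∧ Conj d p q z (num d x) (den d x) none) ∧
      ∀ (P : Ideal (MvPolynomial (Sg d) ℂ)) [P.IsPrime],
        P ∈ (MvPolynomial.vanishingIdeal ℂ (V d n ℂ)).minimalPrimes →
        Algebra.trdeg ℂ (FractionRing (MvPolynomial (Sg d) ℂ ⧸ P)) = (2 * d - 2 : ℕ)) ∧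
    ∀ B : ℕ, ∃ n₀ : ℕ, ∀ n, n₀ ≤ n →
      (∀ (P : Ideal (MvPolynomial (Sg d) ℂ)) [P.IsPrime],
        P ∈ (MvPolynomial.vanishingIdeal ℂ (V d n ℂ)).minimalPrimes →
        ∀ t : Fin (2 * d - 2) → FractionRing (MvPolynomial (Sg d) ℂ ⧸ P),
          IsTranscendenceBasis ℂ t →
          B < Module.finrank (IntermediateField.adjoin ℂ (Set.range t))
            (FractionRing (MvPolynomial (Sg d) ℂ ⧸ P))) ∧
      ∀ (P : Ideal (MvPolynomial (Sg d) ℂ)) [P.IsPrime] (W : Set (Sg d → ℂ)), W ⊆ V d n ℂ →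
        P = MvPolynomial.vanishingIdeal ℂ W → ∀ w : ℕ, 1 ≤ w →
        ∀ t : Fin w → FractionRing (MvPolynomial (Sg d) ℂ ⧸ P), IsTranscendenceBasis ℂ t →
          B < Module.finrank (IntermediateField.adjoin ℂ (Set.range t))
            (FractionRing (MvPolynomial (Sg d) ℂ ⧸ P)) := by
  refine ⟨fun n hn => ⟨b_nem d n hd hn, b_nfm ℂ d n hd hn, fun P _ hP =>
    (b_cmp ℂ d n hd (by omega) P hP).2⟩, fun D => ?_⟩
  obtain ⟨B, hB3, hB⟩ := gonality a_gonl b_gnp Pool.Agent.Q176.GT.R3.fun_ d D hd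
  refine ⟨B, fun n hn => ⟨?_, ?_⟩⟩
  · intro P _ hP t ht
    obtain ⟨h1, h2⟩ := b_cmp ℂ d n hd (by omega) P hP
    exact hB n hn ℂ P _ Set.inter_subset_left h1 (2 * d - 2) (by omega) t ht
  · intro P _ W hW hP w hw t ht
    exact hB n hn ℂ P W hW hP w hw t ht

end Pool.Agent.Q41.GT
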